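import Mathlib
import Pool.Agent.H96.MC.Targets

/-!
# CLS: small representatives modulo the group of the types
-/

namespace Pool.Agent.H46.MC

open Pool.Agent.H96.MC

/-- cast of a natural vector to a rational vector -/
def toQ {q : ℕ} (v : Fin q → ℕ) : Fin q → ℚ := fun i => (v i : ℚ)

theorem span_top {q : ℕ} (D : Dat q) :
    Submodule.span ℚ (toQ '' (D.V : Set (Fin q → ℕ))) = ⊤ := by
  by_contra hne
  obtain ⟨f, hf, hle⟩ := Submodule.exists_le_ker_of_lt_top _ (lt_top_iff_ne_top.2 hne)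
  set a : Fin q → ℚ := fun i => f (Pi.single i 1) with ha
  have hfx : ∀ x : Fin q → ℚ, f x = ∑ i, x i * a i := by
    intro x
    have h := LinearMap.pi_apply_eq_sum_univ f x
    rw [h]
    refine Finset.sum_congr rfl fun i _ => ?_
    rw [smul_eq_mul]
    congr 2
    funext j
    simp [Pi.single_apply, eq_comm]
  have hV : ∀ v ∈ D.V, ∑ i, (a i : ℝ) * (v i : ℝ) = 0 := by
    intro v hv
    have h1 : toQ v ∈ LinearMap.ker f := hle (Submodule.subset_span ⟨v, hv, rfl⟩)
    rw [LinearMap.mem_ker, hfx] at h1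
    have h2 : ((∑ i, toQ v i * a i : ℚ) : ℝ) = 0 := by rw [h1]; simp
    rw [← h2]
    push_cast
    refine Finset.sum_congr rfl fun i _ => ?_
    unfold toQ
    push_cast
    ring
  have hcone : ∀ x ∈ cone D.V, ∑ i, (a i : ℝ) * x i = 0 := by
    rintro x ⟨b, _, rfl⟩
    calc ∑ i, (a i : ℝ) * ∑ v ∈ D.V, b v * (v i : ℝ)
        = ∑ v ∈ D.V, b v * ∑ i, (a i : ℝ) * (v i : ℝ) := by
          simp_rw [Finset.mul_sum]
          rw [Finset.sum_comm]
          refine Finset.sum_congr rfl fun v _ => Finset.sum_congr rfl fun i _ => ?_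
          ring
      _ = 0 := by
          refine Finset.sum_eq_zero fun v hv => ?_
          rw [hV v hv, mul_zero]
  have hcont : Continuous (fun t : ℝ => fun i => D.lam i + t * (a i : ℝ)) := by fun_prop
  have hmem : ∀ᶠ t in nhds (0 : ℝ), (fun i => D.lam i + t * (a i : ℝ)) ∈ interior (cone D.V) := by
    apply hcont.continuousAt.eventually_mem
    have : (fun i => D.lam i + (0 : ℝ) * (a i : ℝ)) = D.lam := by funext i; ring
    rw [this]
    exact isOpen_interior.mem_nhds D.int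
  obtain ⟨ε, hε, hb⟩ := Metric.eventually_nhds_iff.1 hmem
  have h3 : (fun i => D.lam i + (ε / 2) * (a i : ℝ)) ∈ cone D.V := by
    refine interior_subset (hb ?_)
    rw [dist_zero_right, Real.norm_eq_abs, abs_of_pos (by positivity)]
    linarith
  have h4 := hcone _ h3
  have h5 := hcone _ (interior_subset D.int)
  have h6 : ∑ i, (a i : ℝ) * (D.lam i + (ε / 2) * (a i : ℝ))
      = ∑ i, (a i : ℝ) * D.lam i + (ε / 2) * ∑ i, (a i : ℝ) ^ 2 := by
    rw [Finset.mul_sum, ← Finset.sum_add_distrib]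
    refine Finset.sum_congr rfl fun i _ => ?_
    ring
  rw [h6, h5, zero_add] at h4
  have h7 : ∑ i, (a i : ℝ) ^ 2 = 0 := by
    rcases mul_eq_zero.1 h4 with h | h
    · linarith
    · exact h
  rw [Finset.sum_eq_zero_iff_of_nonneg (fun i _ => sq_nonneg _)] at h7
  apply hf
  ext i
  have h8 : (a i : ℝ) = 0 := by
    have := h7 i (Finset.mem_univ i)
    exact pow_eq_zero_iff (two_ne_zero) |>.1 this
  have h9 : a i = 0 := by exact_mod_cast h8
  simpa using h9

theorem den {q : ℕ} (D : Dat q) (x : Fin q → ℚ)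
    (hx : x ∈ Submodule.span ℚ (toQ '' (D.V : Set (Fin q → ℕ)))) :
    ∃ (E : ℕ) (y : Fin q → ℤ), 1 ≤ E ∧ y ∈ Lat D.V ∧ ∀ i, (E : ℚ) * x i = (y i : ℚ) := by
  induction hx using Submodule.span_induction with
  | mem x hx =>
    obtain ⟨v, hv, rfl⟩ := hx
    refine ⟨1, toZ v, le_refl _, AddSubgroup.subset_closure ⟨v, hv, rfl⟩, fun i => ?_⟩
    simp [toQ, Pool.Agent.H96.MC.toZ]
  | zero => exact ⟨1, 0, le_refl _, (Lat D.V).zero_mem, fun i => by simp⟩
  | add x y _ _ hx hy =>
    obtain ⟨E, u, hE, hu, h1⟩ := hx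
    obtain ⟨F, v, hF, hv, h2⟩ := hy
    refine ⟨E * F, (F : ℤ) • u + (E : ℤ) • v, Nat.mul_pos hE hF,
      (Lat D.V).add_mem ((Lat D.V).zsmul_mem hu _) ((Lat D.V).zsmul_mem hv _), fun i => ?_⟩
    simp only [Pi.add_apply, Pi.smul_apply, smul_eq_mul]
    push_cast
    rw [← h1 i, ← h2 i]
    ring
  | smul c x _ hx =>
    obtain ⟨E, u, hE, hu, h1⟩ := hx
    refine ⟨c.den * E, c.num • u, Nat.mul_pos c.den_pos hE, (Lat D.V).zsmul_mem hu _,
      fun i => ?_⟩
    simp only [Pi.smul_apply, smul_eq_mul]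
    push_cast
    rw [← h1 i]
    have h2 : (c.den : ℚ) * c = c.num := by
      rw [mul_comm]; exact Rat.mul_den_eq_num c
    calc (c.den : ℚ) * E * (c * x i) = ((c.den : ℚ) * c) * (E * x i) := by ring
      _ = _ := by rw [h2]

theorem cls : T_CLS := by
  intro q D
  have h1 : ∀ i : Fin q, ∃ (E : ℕ) (y : Fin q → ℤ), 1 ≤ E ∧ y ∈ Lat D.V ∧
      ∀ j, (E : ℚ) * (Pi.single i 1 : Fin q → ℚ) j = (y j : ℚ) := by
    intro i
    apply den
    rw [span_top]
    trivial
  choose E y hE hy hEy using h1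
  have h2 : ∀ i, (E i : ℤ) • (Pi.single i 1 : Fin q → ℤ) ∈ Lat D.V := by
    intro i
    have : (E i : ℤ) • (Pi.single i 1 : Fin q → ℤ) = y i := by
      funext j
      have h := hEy i j
      have h' : (((E i : ℤ) * (Pi.single i 1 : Fin q → ℤ) j : ℤ) : ℚ) = ((y i j : ℤ) : ℚ) := by
        rw [← h]
        push_cast
        congr 1
        by_cases hij : j = i
        · subst hij; simp
        · simp [hij]
      exact_mod_cast h'
    rw [this]
    exact hy i
  have hP : 1 ≤ ∏ i, E i := Nat.succ_le_of_lt (Finset.prod_pos (fun i _ => hE i))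
  have h3 : ∀ z : Fin q → ℤ, ((∏ i, E i : ℕ) : ℤ) • z ∈ Lat D.V := by
    intro z
    have : ((∏ i, E i : ℕ) : ℤ) • z
        = ∑ i, (z i * ((∏ j ∈ Finset.univ.erase i, E j : ℕ) : ℤ)) •
          ((E i : ℤ) • (Pi.single i 1 : Fin q → ℤ)) := by
      funext j
      rw [Finset.sum_apply, Finset.sum_eq_single j]
      · simp only [Pi.smul_apply, smul_eq_mul, Pi.single_eq_same, mul_one]
        rw [← Finset.prod_erase_mul Finset.univ E (Finset.mem_univ j)]
        push_cast
        ring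
      · intro b _ hb
        simp [Ne.symm hb]
      · intro h; exact absurd (Finset.mem_univ j) h
    rw [this]
    exact (Lat D.V).sum_mem fun i _ => (Lat D.V).zsmul_mem (h2 i) _
  refine ⟨∏ i, E i, hP, ?_, h3⟩
  intro z
  set P : ℕ := ∏ i, E i with hPdef
  have hP0 : (0 : ℤ) < P := by exact_mod_cast hP
  refine ⟨fun i => (z i % (P : ℤ)).toNat, fun i => ?_, ?_⟩
  · have h4 := Int.emod_nonneg (z i) hP0.ne'
    have h5 := Int.emod_lt_of_pos (z i) hP0
    show (z i % (P : ℤ)).toNat < P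
    omega
  · have h6 : z - toZ (fun i => (z i % (P : ℤ)).toNat) = (P : ℤ) • (fun i => z i / (P : ℤ)) := by
      funext i
      have h4 := Int.emod_nonneg (z i) hP0.ne'
      have h7 := Int.emod_add_mul_ediv (z i) P
      simp only [Pi.sub_apply, Pool.Agent.H96.MC.toZ, Pi.smul_apply, smul_eq_mul]
      rw [Int.toNat_of_nonneg h4]
      linarith
    rw [h6]
    exact h3 _

end Pool.Agent.H46.MC
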