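import Mathlib
import Pool.Agent.H96.MC.Targets3

/-!
# NUMC: the pigeonhole inequality for the parameters
-/

namespace Pool.Agent.H46.MC

open Classical Filter Pool.Agent.H96.MC

noncomputable section

/-- the factor in the block sides -/
def gS (m j : ℕ) : ℕ := if j = 0 then 1 else ⌈(m : ℝ) * Real.exp (Real.sqrt j)⌉₊

theorem lS_eq (l0 m j : ℕ) : lS l0 m j = l0 * gS m j := by
  unfold lS gS
  split_ifs
  · rw [mul_one]
  · rfl

theorem exp_le_g {m j : ℕ} (_hm : 1 ≤ m) (hj : 1 ≤ j) : (m : ℝ) * Real.exp (Real.sqrt j) ≤ gS m j := by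
  unfold gS
  rw [if_neg (by omega)]
  exact Nat.le_ceil _

theorem g_lt {m j : ℕ} (hj : 1 ≤ j) :
    (gS m j : ℝ) < (m : ℝ) * Real.exp (Real.sqrt j) + 1 := by
  unfold gS
  rw [if_neg (by omega)]
  exact Nat.ceil_lt_add_one (by positivity)

theorem g_pos {m : ℕ} (hm : 1 ≤ m) (j : ℕ) : 1 ≤ gS m j := by
  unfold gS
  split_ifs
  · exact le_refl _
  · have : (0 : ℝ) < m := by exact_mod_cast hm
    exact Nat.succ_le_of_lt (Nat.ceil_pos.2 (by positivity))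

theorem sqrt_le_nat (j : ℕ) (hj : 1 ≤ j) : Real.sqrt j ≤ j := by
  have h1 : (1 : ℝ) ≤ j := by exact_mod_cast hj
  rw [Real.sqrt_le_left (by linarith)]
  nlinarith

theorem exp_one_le : Real.exp 1 ≤ 3 := by
  have := Real.exp_one_lt_d9
  linarith

theorem g_le {m : ℕ} (hm : 1 ≤ m) {j : ℕ} (hj : 1 ≤ j) : (gS m j : ℝ) ≤ (3 * (m : ℝ) + 1) ^ j := by
  have hm' : (1 : ℝ) ≤ m := by exact_mod_cast hm
  have h1 := (g_lt (m := m) hj).le
  have h2 : Real.exp (Real.sqrt j) ≤ 3 ^ j := by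
    calc Real.exp (Real.sqrt j) ≤ Real.exp j := Real.exp_le_exp.2 (sqrt_le_nat j hj)
      _ = Real.exp 1 ^ j := by rw [← Real.exp_nat_mul, mul_one]
      _ ≤ 3 ^ j := pow_le_pow_left₀ (Real.exp_pos _).le exp_one_le j
  have h3 : ∀ n : ℕ, (m : ℝ) * 3 ^ (n + 1) + 1 ≤ (3 * (m : ℝ) + 1) ^ (n + 1) := by
    intro n
    induction n with
    | zero => norm_num; linarith
    | succ n ih =>
      have h4 : (0 : ℝ) < 3 ^ (n + 1) := by positivity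
      calc (m : ℝ) * 3 ^ (n + 1 + 1) + 1 ≤ ((m : ℝ) * 3 ^ (n + 1) + 1) * (3 * (m : ℝ) + 1) := by
            rw [pow_succ (3 : ℝ) (n + 1)]
            nlinarith [mul_pos (show (0 : ℝ) < m by linarith) h4]
        _ ≤ (3 * (m : ℝ) + 1) ^ (n + 1) * (3 * (m : ℝ) + 1) :=
            mul_le_mul_of_nonneg_right ih (by positivity)
        _ = _ := by rw [← pow_succ]
  obtain ⟨n, rfl⟩ : ∃ n, j = n + 1 := ⟨j - 1, by omega⟩
  calc (gS m (n + 1) : ℝ) ≤ (m : ℝ) * Real.exp (Real.sqrt ((n + 1 : ℕ) : ℝ)) + 1 := h1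
    _ ≤ (m : ℝ) * 3 ^ (n + 1) + 1 := by
        have := mul_le_mul_of_nonneg_left h2 (show (0 : ℝ) ≤ m by linarith)
        linarith
    _ ≤ _ := h3 n

theorem g_mono_succ {m : ℕ} (hm : 1 ≤ m) (k : ℕ) : gS m k ≤ gS m (k + 1) := by
  rcases Nat.eq_zero_or_pos k with rfl | hk
  · exact g_pos hm 1
  · unfold gS
    rw [if_neg (by omega), if_neg (by omega)]
    apply Nat.ceil_le_ceil
    apply mul_le_mul_of_nonneg_left _ (Nat.cast_nonneg m)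
    apply Real.exp_le_exp.2
    apply Real.sqrt_le_sqrt
    push_cast
    linarith

theorem g_succ_le {m : ℕ} (hm : 1 ≤ m) {k : ℕ} (hk : 1 ≤ k) :
    (gS m (k + 1) : ℝ) ≤ 4 * gS m k := by
  have hm' : (1 : ℝ) ≤ m := by exact_mod_cast hm
  have h1 := (g_lt (m := m) (j := k + 1) (by omega)).le
  have h2 := exp_le_g hm hk
  have h3 : Real.exp (Real.sqrt ((k + 1 : ℕ) : ℝ)) ≤ 3 * Real.exp (Real.sqrt k) := by
    have h4 : Real.sqrt ((k + 1 : ℕ) : ℝ) ≤ Real.sqrt k + 1 := by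
      rw [Real.sqrt_le_left (by positivity)]
      have h5 := Real.sq_sqrt (show (0 : ℝ) ≤ k by positivity)
      have h6 := Real.sqrt_nonneg (k : ℝ)
      push_cast
      nlinarith
    calc Real.exp (Real.sqrt ((k + 1 : ℕ) : ℝ)) ≤ Real.exp (Real.sqrt k + 1) :=
          Real.exp_le_exp.2 h4
      _ = Real.exp 1 * Real.exp (Real.sqrt k) := by rw [Real.exp_add]; ring
      _ ≤ 3 * Real.exp (Real.sqrt k) :=
          mul_le_mul_of_nonneg_right exp_one_le (Real.exp_pos _).le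
  have h7 : 1 ≤ (m : ℝ) * Real.exp (Real.sqrt k) := by
    have h8 : 1 ≤ Real.exp (Real.sqrt k) := Real.one_le_exp (Real.sqrt_nonneg _)
    nlinarith
  have h8 : (m : ℝ) * Real.exp (Real.sqrt ((k + 1 : ℕ) : ℝ)) ≤
      3 * ((m : ℝ) * Real.exp (Real.sqrt k)) := by
    calc (m : ℝ) * Real.exp (Real.sqrt ((k + 1 : ℕ) : ℝ)) ≤ m * (3 * Real.exp (Real.sqrt k)) :=
          mul_le_mul_of_nonneg_left h3 (by linarith)
      _ = _ := by ring
  linarith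

/-- the polynomial factor -/
def Fa (a : ℝ) (d N : ℕ) : ℝ := a * ((N : ℝ) - d) ^ d - 4

theorem th_zero (a cT : ℝ) (d l0 m : ℕ) (Nf : ℕ → ℕ) : thS a cT d l0 m Nf 0 = cT * (l0 : ℝ) ^ d := by
  unfold thS
  rw [if_pos rfl]

theorem th_pos_eq (a cT : ℝ) (d l0 m : ℕ) (Nf : ℕ → ℕ) {j : ℕ} (hj : 1 ≤ j) :
    thS a cT d l0 m Nf j = Fa a d (Nf j) * ((l0 : ℝ) * gS m j) ^ d := by
  unfold thS
  rw [if_neg (by omega), lS_eq]
  unfold Fa
  push_cast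
  rfl

section

variable {d : ℕ} {a : ℝ} {Ns : ℕ}

/-- the condition on the first value -/
def NsOk (a : ℝ) (d Ns : ℕ) : Prop := d + 1 ≤ Ns ∧ 8 ≤ a * ((Ns : ℝ) - d) ^ d

theorem ns_eventually (ha : 0 < a) (hd : 1 ≤ d) : ∀ᶠ Ns : ℕ in atTop, NsOk a d Ns := by
  filter_upwards [eventually_ge_atTop (d + 1 + ⌈8 / a⌉₊)] with Ns hNs
  refine ⟨by omega, ?_⟩
  have h1 : ((d + 1 + ⌈8 / a⌉₊ : ℕ) : ℝ) ≤ Ns := by exact_mod_cast hNs
  push_cast at h1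
  have h2 := Nat.le_ceil (8 / a)
  have h3 : 8 / a ≤ (Ns : ℝ) - d := by linarith
  have h3' : (1 : ℝ) ≤ (Ns : ℝ) - d := by
    have : (0 : ℝ) ≤ (⌈8 / a⌉₊ : ℝ) := Nat.cast_nonneg _
    linarith
  have h4 : (Ns : ℝ) - d ≤ ((Ns : ℝ) - d) ^ d := le_self_pow₀ h3' (by omega)
  have h5 : 8 ≤ a * ((Ns : ℝ) - d) := by
    rw [div_le_iff₀ ha] at h3
    linarith
  nlinarith

theorem base_mono (hok : NsOk a d Ns) {N : ℕ} (hN : Ns ≤ N) :
    ((Ns : ℝ) - d) ^ d ≤ ((N : ℝ) - d) ^ d := by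
  have h1 : ((d + 1 : ℕ) : ℝ) ≤ Ns := by exact_mod_cast hok.1
  have h2 : (Ns : ℝ) ≤ N := by exact_mod_cast hN
  push_cast at h1
  exact pow_le_pow_left₀ (by linarith) (by linarith) d

theorem Fa_ge (ha : 0 < a) (hok : NsOk a d Ns) {N : ℕ} (hN : Ns ≤ N) : 4 ≤ Fa a d N := by
  have h1 := base_mono hok hN
  have h2 := hok.2
  unfold Fa
  nlinarith

theorem Fa_mono (ha : 0 < a) (hok : NsOk a d Ns) {N N' : ℕ} (hN : Ns ≤ N) (hNN : N ≤ N') :
    Fa a d N ≤ Fa a d N' := by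
  have h1 : ((d + 1 : ℕ) : ℝ) ≤ Ns := by exact_mod_cast hok.1
  have h2 : (Ns : ℝ) ≤ N := by exact_mod_cast hN
  have h3 : (N : ℝ) ≤ N' := by exact_mod_cast hNN
  push_cast at h1
  have h4 : ((N : ℝ) - d) ^ d ≤ ((N' : ℝ) - d) ^ d :=
    pow_le_pow_left₀ (by linarith) (by linarith) d
  unfold Fa
  nlinarith

theorem Fa_succ (ha : 0 < a) (hok : NsOk a d Ns) {N N' : ℕ} (hN : Ns ≤ N) (hNN : N' ≤ N + 1) :
    (hNd : N ≤ N') → Fa a d N' ≤ 2 ^ (d + 1) * Fa a d N := by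
  intro hNd
  have h1 : ((d + 1 : ℕ) : ℝ) ≤ Ns := by exact_mod_cast hok.1
  have h2 : (Ns : ℝ) ≤ N := by exact_mod_cast hN
  have h3 : (N' : ℝ) ≤ N + 1 := by exact_mod_cast hNN
  have h3' : (N : ℝ) ≤ N' := by exact_mod_cast hNd
  push_cast at h1
  have h4 : ((N' : ℝ) - d) ^ d ≤ (2 * ((N : ℝ) - d)) ^ d :=
    pow_le_pow_left₀ (by linarith) (by linarith) d
  rw [mul_pow] at h4
  have h5 := base_mono hok hN
  have h6 := hok.2
  have h7 : 8 ≤ a * ((N : ℝ) - d) ^ d := by nlinarith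
  have h8 : (0 : ℝ) < 2 ^ d := by positivity
  unfold Fa
  rw [pow_succ]
  calc a * ((N' : ℝ) - d) ^ d - 4 ≤ a * (2 ^ d * ((N : ℝ) - d) ^ d) := by nlinarith
    _ = 2 ^ d * (a * ((N : ℝ) - d) ^ d) := by ring
    _ ≤ 2 ^ d * (2 * (a * ((N : ℝ) - d) ^ d - 4)) := by
        apply mul_le_mul_of_nonneg_left _ h8.le
        linarith
    _ = _ := by ring

end

/-- the ratio -/
def rhoS (a cT : ℝ) (d m Ns : ℕ) : ℝ :=
  max (2 ^ (3 * d + 1)) (a * ((Ns : ℝ) + 1) ^ d * (3 * (m : ℝ) + 1) ^ d / cT)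

theorem rho_ge (a cT : ℝ) (d m Ns : ℕ) : 2 ≤ rhoS a cT d m Ns := by
  unfold rhoS
  refine le_trans ?_ (le_max_left _ _)
  calc (2 : ℝ) = 2 ^ 1 := by norm_num
    _ ≤ 2 ^ (3 * d + 1) := pow_le_pow_right₀ (by norm_num) (by omega)

section

variable {d : ℕ} {a cT : ℝ} {Ns m l0 : ℕ} {Nf : ℕ → ℕ}

theorem th_pos (ha : 0 < a) (hcT : 0 < cT) (hok : NsOk a d Ns) (hm : 1 ≤ m) (hl : 1 ≤ l0)
    (hNf : ∀ j, Ns ≤ Nf j) (j : ℕ) : 0 < thS a cT d l0 m Nf j := by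
  have hl' : (0 : ℝ) < l0 := by exact_mod_cast hl
  rcases Nat.eq_zero_or_pos j with rfl | hj
  · rw [th_zero]; positivity
  · rw [th_pos_eq a cT d l0 m Nf hj]
    have h1 := Fa_ge ha hok (hNf j)
    have h2 : (0 : ℝ) < gS m j := by exact_mod_cast g_pos hm j
    have h3 : (0 : ℝ) < Fa a d (Nf j) := by linarith
    positivity

theorem th_mono_succ (ha : 0 < a) (hcT : 0 < cT) (hcT1 : cT ≤ 1) (hok : NsOk a d Ns) (hm : 1 ≤ m)
    (hl : 1 ≤ l0) (hNf : ∀ j, Ns ≤ Nf j) (hmono : Monotone Nf) (k : ℕ) :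
    thS a cT d l0 m Nf k ≤ thS a cT d l0 m Nf (k + 1) := by
  have hl' : (1 : ℝ) ≤ l0 := by exact_mod_cast hl
  rw [th_pos_eq a cT d l0 m Nf (show 1 ≤ k + 1 by omega)]
  have h1 := Fa_ge ha hok (hNf (k + 1))
  rcases Nat.eq_zero_or_pos k with rfl | hk
  · rw [th_zero]
    have h2 : (1 : ℝ) ≤ gS m (0 + 1) := by exact_mod_cast g_pos hm (0 + 1)
    have h3 : (l0 : ℝ) ^ d ≤ ((l0 : ℝ) * gS m (0 + 1)) ^ d :=
      pow_le_pow_left₀ (by linarith) (by nlinarith) d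
    have h4 : (0 : ℝ) ≤ (l0 : ℝ) ^ d := by positivity
    nlinarith
  · rw [th_pos_eq a cT d l0 m Nf hk]
    have h2 : (gS m k : ℝ) ≤ gS m (k + 1) := by exact_mod_cast g_mono_succ hm k
    have h3 : ((l0 : ℝ) * gS m k) ^ d ≤ ((l0 : ℝ) * gS m (k + 1)) ^ d :=
      pow_le_pow_left₀ (by positivity) (mul_le_mul_of_nonneg_left h2 (by linarith)) d
    have h4 := Fa_mono ha hok (hNf k) (hmono (Nat.le_succ k))
    have h5 := Fa_ge ha hok (hNf k)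
    exact mul_le_mul h4 h3 (by positivity) (by linarith)

theorem th_ratio_succ (ha : 0 < a) (hcT : 0 < cT) (hok : NsOk a d Ns)
    (hm : 1 ≤ m) (hl : 1 ≤ l0) (hNf : ∀ j, Ns ≤ Nf j) (hmono : Monotone Nf)
    (h0 : Nf 0 = Ns) (hstep : ∀ j, Nf (j + 1) ≤ Nf j + 1) (k : ℕ) :
    thS a cT d l0 m Nf (k + 1) ≤ rhoS a cT d m Ns * thS a cT d l0 m Nf k := by
  have hl' : (1 : ℝ) ≤ l0 := by exact_mod_cast hl
  have hm' : (1 : ℝ) ≤ m := by exact_mod_cast hm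
  rw [th_pos_eq a cT d l0 m Nf (show 1 ≤ k + 1 by omega)]
  rcases Nat.eq_zero_or_pos k with rfl | hk
  · rw [th_zero]
    have h1 : Fa a d (Nf (0 + 1)) ≤ a * ((Ns : ℝ) + 1) ^ d := by
      have h2 := hstep 0
      rw [h0] at h2
      have h3 : ((Nf (0 + 1) : ℕ) : ℝ) ≤ Ns + 1 := by exact_mod_cast h2
      have h4 := hNf (0 + 1)
      have h5 : ((d + 1 : ℕ) : ℝ) ≤ Ns := by exact_mod_cast hok.1
      have h6 : (Ns : ℝ) ≤ Nf (0 + 1) := by exact_mod_cast h4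
      push_cast at h5
      have h7 : (((Nf (0 + 1) : ℕ) : ℝ) - d) ^ d ≤ ((Ns : ℝ) + 1) ^ d := by
        apply pow_le_pow_left₀ (by linarith)
        have : (0 : ℝ) ≤ d := Nat.cast_nonneg d
        linarith
      unfold Fa
      nlinarith
    have h2 : (gS m (0 + 1) : ℝ) ≤ 3 * (m : ℝ) + 1 := by
      have := g_le hm (show 1 ≤ 0 + 1 by omega)
      simpa using this
    have h3 : ((l0 : ℝ) * gS m (0 + 1)) ^ d ≤ (l0 : ℝ) ^ d * (3 * (m : ℝ) + 1) ^ d := by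
      rw [mul_pow]
      apply mul_le_mul_of_nonneg_left _ (by positivity)
      exact pow_le_pow_left₀ (by positivity) h2 d
    have h4 : a * ((Ns : ℝ) + 1) ^ d * (3 * (m : ℝ) + 1) ^ d / cT ≤ rhoS a cT d m Ns :=
      le_max_right _ _
    rw [div_le_iff₀ hcT] at h4
    calc Fa a d (Nf (0 + 1)) * ((l0 : ℝ) * gS m (0 + 1)) ^ d
        ≤ (a * ((Ns : ℝ) + 1) ^ d) * ((l0 : ℝ) ^ d * (3 * (m : ℝ) + 1) ^ d) :=
          mul_le_mul h1 h3 (by positivity) (by positivity)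
      _ = (a * ((Ns : ℝ) + 1) ^ d * (3 * (m : ℝ) + 1) ^ d) * (l0 : ℝ) ^ d := by ring
      _ ≤ (rhoS a cT d m Ns * cT) * (l0 : ℝ) ^ d :=
          mul_le_mul_of_nonneg_right h4 (by positivity)
      _ = _ := by ring
  · rw [th_pos_eq a cT d l0 m Nf hk]
    have h1 := Fa_succ ha hok (hNf k) (hstep k) (hmono (Nat.le_succ k))
    have h2 : ((l0 : ℝ) * gS m (k + 1)) ^ d ≤ 4 ^ d * ((l0 : ℝ) * gS m k) ^ d := by
      rw [← mul_pow]
      apply pow_le_pow_left₀ (by positivity)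
      have := g_succ_le hm hk
      nlinarith
    have h3 : (2 : ℝ) ^ (3 * d + 1) ≤ rhoS a cT d m Ns := le_max_left _ _
    have h4 : (2 : ℝ) ^ (3 * d + 1) = 2 ^ (d + 1) * 4 ^ d := by
      rw [show (4 : ℝ) = 2 ^ 2 by norm_num, ← pow_mul, ← pow_add]
      congr 1
      omega
    have h5 := Fa_ge ha hok (hNf k)
    have h6 : (0 : ℝ) ≤ Fa a d (Nf k) * ((l0 : ℝ) * gS m k) ^ d := by
      apply mul_nonneg (by linarith) (by positivity)
    have h7 := Fa_ge ha hok (hNf (k + 1))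
    calc Fa a d (Nf (k + 1)) * ((l0 : ℝ) * gS m (k + 1)) ^ d
        ≤ (2 ^ (d + 1) * Fa a d (Nf k)) * (4 ^ d * ((l0 : ℝ) * gS m k) ^ d) :=
          mul_le_mul h1 h2 (by positivity) (by nlinarith [pow_pos (show (0 : ℝ) < 2 by norm_num) (d + 1)])
      _ = (2 ^ (d + 1) * 4 ^ d) * (Fa a d (Nf k) * ((l0 : ℝ) * gS m k) ^ d) := by ring
      _ ≤ rhoS a cT d m Ns * (Fa a d (Nf k) * ((l0 : ℝ) * gS m k) ^ d) := by
          apply mul_le_mul_of_nonneg_right _ h6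
          rw [← h4]
          exact h3

theorem th_ratio (ha : 0 < a) (hcT : 0 < cT) (hok : NsOk a d Ns)
    (hm : 1 ≤ m) (hl : 1 ≤ l0) (hNf : ∀ j, Ns ≤ Nf j) (hmono : Monotone Nf)
    (h0 : Nf 0 = Ns) (hstep : ∀ j, Nf (j + 1) ≤ Nf j + 1) (k i : ℕ) :
    thS a cT d l0 m Nf (k + i) ≤ rhoS a cT d m Ns ^ i * thS a cT d l0 m Nf k := by
  induction i with
  | zero => simp
  | succ i ih =>
    have h1 := th_ratio_succ ha hcT hok hm hl hNf hmono h0 hstep (k + i)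
    have h2 := rho_ge a cT d m Ns
    calc thS a cT d l0 m Nf (k + (i + 1)) ≤ rhoS a cT d m Ns * thS a cT d l0 m Nf (k + i) := h1
      _ ≤ rhoS a cT d m Ns * (rhoS a cT d m Ns ^ i * thS a cT d l0 m Nf k) :=
          mul_le_mul_of_nonneg_left ih (by linarith)
      _ = _ := by rw [pow_succ]; ring

theorem th_mono (ha : 0 < a) (hcT : 0 < cT) (hcT1 : cT ≤ 1) (hok : NsOk a d Ns) (hm : 1 ≤ m)
    (hl : 1 ≤ l0) (hNf : ∀ j, Ns ≤ Nf j) (hmono : Monotone Nf) {k j : ℕ} (hkj : k ≤ j) :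
    thS a cT d l0 m Nf k ≤ thS a cT d l0 m Nf j :=
  monotone_nat_of_le_succ (th_mono_succ ha hcT hcT1 hok hm hl hNf hmono) hkj

theorem log_le (ha : 0 < a) (hd : 1 ≤ d) (hok : NsOk a d Ns) (hm : 1 ≤ m)
    (hl : 1 ≤ l0) (hNf : ∀ j, Ns ≤ Nf j) {j : ℕ} (hj : 1 ≤ j) :
    Real.log (3 * ((j : ℝ) + 1)) ≤ thS a cT d l0 m Nf j / 2 := by
  have hl' : (1 : ℝ) ≤ l0 := by exact_mod_cast hl
  have hm' : (1 : ℝ) ≤ m := by exact_mod_cast hm
  have hg := exp_le_g hm hj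
  have hgp : (1 : ℝ) ≤ gS m j := by exact_mod_cast g_pos hm j
  rw [th_pos_eq a cT d l0 m Nf hj]
  have h1 := Fa_ge ha hok (hNf j)
  have h2 : (1 : ℝ) ≤ (l0 : ℝ) * gS m j := by nlinarith
  have h3 : (l0 : ℝ) * gS m j ≤ ((l0 : ℝ) * gS m j) ^ d := le_self_pow₀ h2 (by omega)
  have h4 : Real.exp (Real.sqrt j) ≤ (l0 : ℝ) * gS m j := by
    have h5 := Real.exp_pos (Real.sqrt j)
    nlinarith
  have h5 := Real.quadratic_le_exp_of_nonneg (Real.sqrt_nonneg (j : ℝ))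
  rw [Real.sq_sqrt (Nat.cast_nonneg j)] at h5
  have h6 := Real.sqrt_nonneg (j : ℝ)
  have h7 : Real.log (3 * ((j : ℝ) + 1)) ≤ 2 + j := by
    rw [Real.log_mul (by norm_num) (by positivity)]
    have h8 := Real.log_le_sub_one_of_pos (show (0 : ℝ) < 3 by norm_num)
    have h9 := Real.log_le_sub_one_of_pos (show (0 : ℝ) < (j : ℝ) + 1 by positivity)
    linarith
  nlinarith

theorem kap_le (ha : 0 < a) (hcT : 0 < cT) (hcT1 : cT ≤ 1) (hd : 1 ≤ d) (hok : NsOk a d Ns)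
    (hm : 1 ≤ m) (hl : 1 ≤ l0) (hNf : ∀ j, Ns ≤ Nf j) (hmono : Monotone Nf)
    (h0 : Nf 0 = Ns) (hstep : ∀ j, Nf (j + 1) ≤ Nf j + 1) {k j : ℕ} (hkj : k < j) :
    (kapS a cT d l0 m Nf j k : ℝ) ≤ 4 * rhoS a cT d m Ns ^ (j - k) := by
  have hj : 1 ≤ j := by omega
  have hpk := th_pos ha hcT hok hm hl hNf k
  have hpj := th_pos ha hcT hok hm hl hNf j
  have h1 := log_le (cT := cT) ha hd hok hm hl hNf hj
  have h2 := th_mono ha hcT hcT1 hok hm hl hNf hmono hkj.le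
  have h3 := th_ratio ha hcT hok hm hl hNf hmono h0 hstep k (j - k)
  rw [show k + (j - k) = j by omega] at h3
  have hlog : 0 ≤ Real.log (3 * ((j : ℝ) + 1)) := by
    apply Real.log_nonneg
    have : (0 : ℝ) ≤ j := Nat.cast_nonneg j
    linarith
  unfold kapS
  have h4 := (Nat.ceil_lt_add_one (a := 2 * (thS a cT d l0 m Nf j + Real.log (3 * ((j : ℝ) + 1))) /
    thS a cT d l0 m Nf k) (by positivity)).le
  refine h4.trans ?_
  have h5 : 2 * (thS a cT d l0 m Nf j + Real.log (3 * ((j : ℝ) + 1))) / thS a cT d l0 m Nf k + 1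
      ≤ 4 * thS a cT d l0 m Nf j / thS a cT d l0 m Nf k := by
    rw [div_add_one hpk.ne']
    apply div_le_div_of_nonneg_right _ hpk.le
    linarith
  refine h5.trans ?_
  rw [div_le_iff₀ hpk]
  linarith

end

theorem geom_two {x : ℝ} (hx : 2 ≤ x) (j : ℕ) : ∑ i ∈ Finset.range j, x ^ (i + 1) ≤ 2 * x ^ j := by
  induction j with
  | zero => simp
  | succ j ih =>
    rw [Finset.sum_range_succ]
    have h1 : 0 < x ^ j := by positivity
    rw [pow_succ]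
    nlinarith

theorem geom_half (j : ℕ) : ∑ i ∈ Finset.range j, ((1 : ℝ) / 2) ^ (i + 1) ≤ 1 - (1 / 2) ^ j := by
  induction j with
  | zero => simp
  | succ j ih =>
    rw [Finset.sum_range_succ, pow_succ]
    have h1 : (0 : ℝ) < (1 / 2) ^ j := by positivity
    linarith

theorem reflect (f : ℕ → ℝ) (j : ℕ) :
    ∑ k ∈ Finset.range j, f (j - k) = ∑ i ∈ Finset.range j, f (i + 1) := by
  rw [← Finset.sum_range_reflect]
  refine Finset.sum_congr rfl fun k hk => ?_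
  have := Finset.mem_range.1 hk
  congr 1
  omega

theorem div_bound (l0 C m k j e : ℕ) (hl : 1 ≤ l0) :
    ((e * AS l0 C k / lS l0 m j : ℕ) : ℝ) ≤ 16 * e * (C : ℝ) ^ k / gS m j := by
  have hl' : (0 : ℝ) < l0 := by exact_mod_cast hl
  refine Nat.cast_div_le.trans (le_of_eq ?_)
  rw [lS_eq]
  unfold AS
  push_cast
  rw [show (e : ℝ) * (16 * (l0 : ℝ) * (C : ℝ) ^ k) = (l0 : ℝ) * (16 * e * (C : ℝ) ^ k) by ring,
    mul_div_mul_left _ _ hl'.ne']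

theorem rhs_bound (l0 C m j : ℕ) (hl : 1 ≤ l0) :
    4 * (C : ℝ) ^ j / gS m j - 1 < ((AS l0 C j / (4 * lS l0 m j) : ℕ) : ℝ) := by
  have hl' : (0 : ℝ) < l0 := by exact_mod_cast hl
  rw [← Nat.floor_div_eq_div (K := ℝ)]
  have h1 := Nat.lt_floor_add_one (((AS l0 C j : ℕ) : ℝ) / ((4 * lS l0 m j : ℕ) : ℝ))
  have h2 : (((AS l0 C j : ℕ) : ℝ) / ((4 * lS l0 m j : ℕ) : ℝ)) = 4 * (C : ℝ) ^ j / gS m j := by
    rw [lS_eq]
    unfold AS
    push_cast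
    rw [show 16 * (l0 : ℝ) * (C : ℝ) ^ j = (4 * l0) * (4 * (C : ℝ) ^ j) by ring,
      show 4 * ((l0 : ℝ) * (gS m j : ℝ)) = (4 * l0) * gS m j by ring,
      mul_div_mul_left _ _ (by positivity)]
  rw [h2] at h1 ⊢
  linarith

/-- the terms of the sum -/
theorem term_bound {ρ : ℝ} (hρ : 2 ≤ ρ) {C : ℕ} (hC : 3072 * ρ ^ 2 ≤ C) {j k : ℕ} (hkj : k < j) :
    4 * ρ ^ (j - k) * (2 * (160 * (C : ℝ) ^ k + 16 * (C : ℝ) ^ (min (k + 1) (j - 1))))
      ≤ (C : ℝ) ^ j * (1 / 2) ^ (j - k) := by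
  have hC2 : 2 * ρ ≤ C := by nlinarith
  have hC0 : (0 : ℝ) < C := by linarith
  have hC1 : (1 : ℝ) ≤ C := by linarith
  obtain ⟨i, rfl⟩ : ∃ i, j = k + 1 + i := ⟨j - k - 1, by omega⟩
  rw [show k + 1 + i - k = i + 1 by omega]
  have hpow : ∀ n : ℕ, (2 * ρ) ^ n ≤ (C : ℝ) ^ n := fun n =>
    pow_le_pow_left₀ (by linarith) hC2 n
  have hkey : ρ ^ (i + 1) * (C : ℝ) ^ (min (k + 1) (k + 1 + i - 1)) * 2 ^ (i + 1) * C
      ≤ 4 * ρ ^ 2 * (C : ℝ) ^ (k + 1 + i) := by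
    rcases Nat.eq_zero_or_pos i with rfl | hi
    · rw [show min (k + 1) (k + 1 + 0 - 1) = k by omega]
      have h1 : (0 : ℝ) < (C : ℝ) ^ (k + 1) := by positivity
      have h2 : (C : ℝ) ^ (k + 1) = (C : ℝ) ^ k * C := pow_succ _ _
      calc ρ ^ (0 + 1) * (C : ℝ) ^ k * 2 ^ (0 + 1) * C = 2 * ρ * (C : ℝ) ^ (k + 1) := by
            rw [h2]; ring
        _ ≤ 4 * ρ ^ 2 * (C : ℝ) ^ (k + 1) := by
            apply mul_le_mul_of_nonneg_right _ h1.le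
            nlinarith
        _ = _ := by rw [add_zero]
    · obtain ⟨t, rfl⟩ : ∃ t, i = t + 1 := ⟨i - 1, by omega⟩
      rw [show min (k + 1) (k + 1 + (t + 1) - 1) = k + 1 by omega]
      have h1 := hpow t
      have h2 : (C : ℝ) ^ (k + 1 + (t + 1)) = (C : ℝ) ^ (k + 1) * C * (C : ℝ) ^ t := by
        rw [pow_add (C : ℝ) (k + 1) (t + 1), pow_succ (C : ℝ) t]; ring
      have h3 : (0 : ℝ) < (C : ℝ) ^ (k + 1) := by positivity
      calc ρ ^ (t + 1 + 1) * (C : ℝ) ^ (k + 1) * 2 ^ (t + 1 + 1) * C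
          = (4 * ρ ^ 2 * (C : ℝ) ^ (k + 1) * C) * (2 * ρ) ^ t := by rw [mul_pow]; ring
        _ ≤ (4 * ρ ^ 2 * (C : ℝ) ^ (k + 1) * C) * (C : ℝ) ^ t :=
            mul_le_mul_of_nonneg_left h1 (by positivity)
        _ = _ := by rw [h2]; ring
  have hkey2 : ρ ^ (i + 1) * (C : ℝ) ^ k * 2 ^ (i + 1) * C ≤ 2 * ρ * (C : ℝ) ^ (k + 1 + i) := by
    have h1 := hpow i
    have h2 : (C : ℝ) ^ (k + 1 + i) = (C : ℝ) ^ k * C * (C : ℝ) ^ i := by
      rw [pow_add (C : ℝ) (k + 1) i, pow_succ (C : ℝ) k]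
    calc ρ ^ (i + 1) * (C : ℝ) ^ k * 2 ^ (i + 1) * C
        = (2 * ρ * (C : ℝ) ^ k * C) * (2 * ρ) ^ i := by rw [mul_pow]; ring
      _ ≤ (2 * ρ * (C : ℝ) ^ k * C) * (C : ℝ) ^ i :=
          mul_le_mul_of_nonneg_left h1 (by positivity)
      _ = _ := by rw [h2]; ring
  have h2i : (0 : ℝ) < 2 ^ (i + 1) := by positivity
  have hX : (0 : ℝ) < (C : ℝ) ^ (k + 1 + i) := by positivity
  rw [one_div, inv_pow, ← div_eq_mul_inv, le_div_iff₀ h2i]
  have h5 : (4 * ρ ^ (i + 1) * (2 * (160 * (C : ℝ) ^ k +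
      16 * (C : ℝ) ^ (min (k + 1) (k + 1 + i - 1)))) * 2 ^ (i + 1)) * C
      ≤ (C : ℝ) ^ (k + 1 + i) * C := by
    calc (4 * ρ ^ (i + 1) * (2 * (160 * (C : ℝ) ^ k +
          16 * (C : ℝ) ^ (min (k + 1) (k + 1 + i - 1)))) * 2 ^ (i + 1)) * C
        = 1280 * (ρ ^ (i + 1) * (C : ℝ) ^ k * 2 ^ (i + 1) * C) +
          128 * (ρ ^ (i + 1) * (C : ℝ) ^ (min (k + 1) (k + 1 + i - 1)) * 2 ^ (i + 1) * C) := by
          ring
      _ ≤ 1280 * (2 * ρ * (C : ℝ) ^ (k + 1 + i)) + 128 * (4 * ρ ^ 2 * (C : ℝ) ^ (k + 1 + i)) := by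
          linarith
      _ = (2560 * ρ + 512 * ρ ^ 2) * (C : ℝ) ^ (k + 1 + i) := by ring
      _ ≤ C * (C : ℝ) ^ (k + 1 + i) := by
          apply mul_le_mul_of_nonneg_right _ hX.le
          nlinarith
      _ = _ := by ring
  exact le_of_mul_le_mul_right h5 hC0

/-- the natural constant of one value of `Nf` -/
def BN (n0 K : ℕ → ℕ) (N : ℕ) : ℕ := n0 N * (2 * K N + 3) + 8 * (2 * K N + 11) + 1

theorem numc : T_NUMC := by
  intro d a cT ϖ n0 K hd ha hcT hcT1 _ _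
  unfold Largely
  filter_upwards [ns_eventually (d := d) ha hd] with Ns hok
  filter_upwards [eventually_ge_atTop 1] with m hm
  set ρ := rhoS a cT d m Ns with hρdef
  have hρ : 2 ≤ ρ := rho_ge a cT d m Ns
  have hm' : (1 : ℝ) ≤ m := by exact_mod_cast hm
  filter_upwards [eventually_ge_atTop ⌈3072 * ρ ^ 2⌉₊,
    eventually_ge_atTop ⌈2 * ((3 * (m : ℝ) + 1) * ρ)⌉₊,
    eventually_ge_atTop ⌈(3 * (m : ℝ) + 1) * ρ * BN n0 K Ns⌉₊] with C hC1 hC2 hC3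
  have hC1' : 3072 * ρ ^ 2 ≤ (C : ℝ) := Nat.ceil_le.1 hC1
  have hC2' : 2 * ((3 * (m : ℝ) + 1) * ρ) ≤ (C : ℝ) := Nat.ceil_le.1 hC2
  have hC3' : (3 * (m : ℝ) + 1) * ρ * BN n0 K Ns ≤ (C : ℝ) := Nat.ceil_le.1 hC3
  filter_upwards [eventually_ge_atTop 1] with l0 hl
  refine ⟨BN n0 K, fun Nf hS j hj => ?_⟩
  obtain ⟨hmono, h0, hstep, -, hτ⟩ := hS
  have hNf : ∀ j, Ns ≤ Nf j := fun j => h0 ▸ hmono (Nat.zero_le j)
  have hg : (1 : ℝ) ≤ gS m j := by exact_mod_cast g_pos hm j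
  have hgp : (0 : ℝ) < gS m j := by linarith
  have hrhs := rhs_bound l0 C m j hl
  -- the constant
  have hBN : (gS m j : ℝ) * ρ ^ j * BN n0 K (Nf j) ≤ (C : ℝ) ^ j := by
    have h1 : (gS m j : ℝ) * ρ ^ j ≤ ((3 * (m : ℝ) + 1) * ρ) ^ j := by
      rw [mul_pow]
      exact mul_le_mul_of_nonneg_right (g_le hm hj) (by positivity)
    have h2 : ((3 * (m : ℝ) + 1) * ρ) ^ j * BN n0 K (Nf j) ≤ (C : ℝ) ^ j := by
      rcases hτ j with h | h
      · rw [h]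
        have h3 : (1 : ℝ) ≤ BN n0 K Ns := by
          have : 1 ≤ BN n0 K Ns := by unfold BN; omega
          exact_mod_cast this
        calc ((3 * (m : ℝ) + 1) * ρ) ^ j * BN n0 K Ns
            ≤ ((3 * (m : ℝ) + 1) * ρ) ^ j * (BN n0 K Ns : ℝ) ^ j :=
              mul_le_mul_of_nonneg_left (le_self_pow₀ h3 (by omega)) (by positivity)
          _ = ((3 * (m : ℝ) + 1) * ρ * BN n0 K Ns) ^ j := by rw [← mul_pow]
          _ ≤ (C : ℝ) ^ j := pow_le_pow_left₀ (by positivity) hC3' j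
      · have h3 : (BN n0 K (Nf j) : ℝ) ≤ 2 ^ j := by
          have h4 : BN n0 K (Nf j) ≤ 2 ^ j := h.trans (Nat.lt_two_pow_self).le
          exact_mod_cast h4
        calc ((3 * (m : ℝ) + 1) * ρ) ^ j * BN n0 K (Nf j)
            ≤ ((3 * (m : ℝ) + 1) * ρ) ^ j * 2 ^ j :=
              mul_le_mul_of_nonneg_left h3 (by positivity)
          _ = (2 * ((3 * (m : ℝ) + 1) * ρ)) ^ j := by rw [← mul_pow]; ring
          _ ≤ (C : ℝ) ^ j := pow_le_pow_left₀ (by positivity) hC2' j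
    exact (mul_le_mul_of_nonneg_right h1 (Nat.cast_nonneg _)).trans h2
  -- the sum
  have hsum : ((∑ k ∈ Finset.Ico (k0S ϖ m C j) j, kapS a cT d l0 m Nf j k *
      (2 * (10 * AS l0 C k / lS l0 m j + AS l0 C (min (k + 1) (j - 1)) / lS l0 m j + K (Nf j) + 5)
        + 1) : ℕ) : ℝ) ≤ (C : ℝ) ^ j / gS m j + 8 * (2 * (K (Nf j) : ℝ) + 11) * ρ ^ j := by
    push_cast
    have hterm : ∀ k ∈ Finset.Ico (k0S ϖ m C j) j,
        (kapS a cT d l0 m Nf j k : ℝ) * (2 * (((10 * AS l0 C k / lS l0 m j : ℕ) : ℝ) +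
          ((AS l0 C (min (k + 1) (j - 1)) / lS l0 m j : ℕ) : ℝ) + (K (Nf j) : ℝ) + 5) + 1)
        ≤ (C : ℝ) ^ j / gS m j * (1 / 2) ^ (j - k) +
          4 * (2 * (K (Nf j) : ℝ) + 11) * ρ ^ (j - k) := by
      intro k hk
      have hkj := (Finset.mem_Ico.1 hk).2
      have h1 := kap_le ha hcT hcT1 hd hok hm hl hNf hmono h0 hstep hkj
      have h2 := div_bound l0 C m k j 10 hl
      have h3 := div_bound l0 C m (min (k + 1) (j - 1)) j 1 hl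
      rw [one_mul] at h3
      have h4 := term_bound hρ hC1' hkj
      have hρp : 0 < ρ ^ (j - k) := by positivity
      calc (kapS a cT d l0 m Nf j k : ℝ) * (2 * (((10 * AS l0 C k / lS l0 m j : ℕ) : ℝ) +
            ((AS l0 C (min (k + 1) (j - 1)) / lS l0 m j : ℕ) : ℝ) + (K (Nf j) : ℝ) + 5) + 1)
          ≤ (4 * ρ ^ (j - k)) * (2 * (16 * (10 : ℕ) * (C : ℝ) ^ k / gS m j +
            16 * (1 : ℕ) * (C : ℝ) ^ (min (k + 1) (j - 1)) / gS m j + (K (Nf j) : ℝ) + 5) + 1) := by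
            apply mul_le_mul h1 _ (by positivity) (by positivity)
            linarith
        _ = (4 * ρ ^ (j - k) * (2 * (160 * (C : ℝ) ^ k +
              16 * (C : ℝ) ^ (min (k + 1) (j - 1))))) / gS m j +
            4 * (2 * (K (Nf j) : ℝ) + 11) * ρ ^ (j - k) := by
            push_cast
            field_simp
            ring
        _ ≤ ((C : ℝ) ^ j * (1 / 2) ^ (j - k)) / gS m j +
            4 * (2 * (K (Nf j) : ℝ) + 11) * ρ ^ (j - k) := by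
            have := div_le_div_of_nonneg_right h4 hgp.le
            linarith
        _ = _ := by ring
    refine (Finset.sum_le_sum hterm).trans ?_
    have hsub : Finset.Ico (k0S ϖ m C j) j ⊆ Finset.range j := by
      intro k hk
      exact Finset.mem_range.2 (Finset.mem_Ico.1 hk).2
    refine (Finset.sum_le_sum_of_subset_of_nonneg hsub (fun k _ _ => by positivity)).trans ?_
    rw [Finset.sum_add_distrib, ← Finset.mul_sum, ← Finset.mul_sum,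
      reflect (fun i => ((1 : ℝ) / 2) ^ i) j, reflect (fun i => ρ ^ i) j]
    have h1 := geom_half j
    have h2 := geom_two hρ j
    have h3 : (0 : ℝ) < (1 / 2) ^ j := by positivity
    have h4 : (C : ℝ) ^ j / gS m j * ∑ i ∈ Finset.range j, ((1 : ℝ) / 2) ^ (i + 1)
        ≤ (C : ℝ) ^ j / gS m j * 1 :=
      mul_le_mul_of_nonneg_left (by linarith) (by positivity)
    have h5 : 4 * (2 * (K (Nf j) : ℝ) + 11) * ∑ i ∈ Finset.range j, ρ ^ (i + 1)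
        ≤ 4 * (2 * (K (Nf j) : ℝ) + 11) * (2 * ρ ^ j) :=
      mul_le_mul_of_nonneg_left h2 (by positivity)
    linarith
  have hfin : ((n0 (Nf j) * (2 * K (Nf j) + 3) : ℕ) : ℝ) + 8 * (2 * (K (Nf j) : ℝ) + 11) * ρ ^ j + 1
      ≤ (C : ℝ) ^ j / gS m j := by
    rw [le_div_iff₀ hgp]
    refine le_trans ?_ hBN
    have hρ1 : 1 ≤ ρ ^ j := one_le_pow₀ (by linarith)
    have h1 : ((n0 (Nf j) * (2 * K (Nf j) + 3) : ℕ) : ℝ) + 8 * (2 * (K (Nf j) : ℝ) + 11) * ρ ^ j + 1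
        ≤ ρ ^ j * BN n0 K (Nf j) := by
      unfold BN
      push_cast
      have h2 : (0 : ℝ) ≤ (n0 (Nf j) : ℝ) * (2 * (K (Nf j) : ℝ) + 3) := by positivity
      nlinarith
    calc (((n0 (Nf j) * (2 * K (Nf j) + 3) : ℕ) : ℝ) + 8 * (2 * (K (Nf j) : ℝ) + 11) * ρ ^ j + 1)
          * gS m j ≤ (ρ ^ j * BN n0 K (Nf j)) * gS m j := mul_le_mul_of_nonneg_right h1 hgp.le
      _ = _ := by ring
  have hpos : 0 ≤ (C : ℝ) ^ j / gS m j := by positivity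
  have hmain : ((n0 (Nf j) * (2 * K (Nf j) + 3) +
      ∑ k ∈ Finset.Ico (k0S ϖ m C j) j, kapS a cT d l0 m Nf j k *
      (2 * (10 * AS l0 C k / lS l0 m j + AS l0 C (min (k + 1) (j - 1)) / lS l0 m j + K (Nf j) + 5)
        + 1) : ℕ) : ℝ) < ((AS l0 C j / (4 * lS l0 m j) : ℕ) : ℝ) := by
    rw [Nat.cast_add]
    have h1 : 4 * (C : ℝ) ^ j / gS m j = 4 * ((C : ℝ) ^ j / gS m j) := by ring
    rw [h1] at hrhs
    linarith
  exact_mod_cast hmain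

end

end Pool.Agent.H46.MC
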