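import Mathlib
import Pool.Agent.H96.MC.Targets

/-!
# SEMI: the bad windows form a semilinear set
-/

namespace Pool.Agent.H46.MC

open Classical Pool.Agent.H96.MC Pointwise

noncomputable section

/-- the group of the classes -/
abbrev Cl {q : ℕ} (V : Finset (Fin q → ℕ)) := (Fin q → ℤ) ⧸ Lat V

/-- restriction of a pattern to a window -/
def Phi {d q : ℕ} (W : Finset (CC d q)) : Pat d q →+ (W → ℕ) where
  toFun u := fun x => u x
  map_zero' := by funext x; rfl
  map_add' u v := by funext x; rfl

theorem Phi_apply {d q : ℕ} (W : Finset (CC d q)) (u : Pat d q) (x : W) : Phi W u x = u x := rfl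

/-- the left class of one pattern -/
def lc {d q : ℕ} (V : Finset (Fin q → ℕ)) (s : ℕ) (u : Pat d q) : Cl V :=
  if ∃ x ∈ u.support, sn x.1 ≤ s then
    ((Pool.Agent.H96.MC.toZ (tot (u.filter (fun x => ∃ i, x.1 i < -(s : ℤ)))) : Fin q → ℤ) : Cl V)
  else 0

theorem leftCls_class {d q : ℕ} (V : Finset (Fin q → ℕ)) (s : ℕ) (μ : Multiset (Pat d q)) :
    ((leftCls s μ : Fin q → ℤ) : Cl V) = (μ.map (lc V s)).sum := by
  unfold leftCls
  induction μ using Multiset.induction_on with
  | empty => simp
  | cons u μ ih =>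
    by_cases h : ∃ x ∈ u.support, sn x.1 ≤ s
    · rw [Multiset.filter_cons_of_pos (p := fun u : Pat d q => ∃ x ∈ u.support, sn x.1 ≤ s) _ h,
        Multiset.map_cons, Multiset.sum_cons,
        Multiset.map_cons, Multiset.sum_cons, ← ih, QuotientAddGroup.mk_add]
      congr 1
      unfold lc
      rw [if_pos h]
    · rw [Multiset.filter_cons_of_neg (p := fun u : Pat d q => ∃ x ∈ u.support, sn x.1 ≤ s) _ h,
        Multiset.map_cons, Multiset.sum_cons, ← ih]
      unfold lc
      rw [if_neg h, zero_add]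

/-- generators -/
def Gen (d q : ℕ) (V : Finset (Fin q → ℕ)) (N s T : ℕ) (W : Finset (CC d q)) :
    Set ((W → ℕ) × Cl V) :=
  ((fun u => (Phi W u, lc V s u)) '' {u : Pat d q | Fam V (N : ℝ) u ∧ ∀ x ∈ u.support, x ∈ W}) ∪
    ((fun x : W => ((Pi.single x 1 : W → ℕ), (0 : Cl V))) '' {x : W | T < sn x.1.1})

theorem le_tot {d q : ℕ} (u : Pat d q) (x : CC d q) : u x ≤ tot u x.2 := by
  by_cases hx : x ∈ u.support
  · unfold tot
    have := Finset.single_le_sum (f := fun y => if y.2 = x.2 then u y else 0)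
      (fun y _ => Nat.zero_le _) hx
    simpa [Finsupp.sum] using this
  · rw [Finsupp.notMem_support_iff.1 hx]
    exact Nat.zero_le _

theorem cl_finite {q : ℕ} (D : Dat q) (h : T_CLS) : Finite (Cl D.V) := by
  obtain ⟨E, hE, h1, _⟩ := h q D
  have hs : Function.Surjective (fun s : Fin q → Fin E =>
      ((Pool.Agent.H96.MC.toZ (fun i => (s i : ℕ)) : Fin q → ℤ) : Cl D.V)) := by
    intro a
    obtain ⟨y, rfl⟩ := QuotientAddGroup.mk_surjective a
    obtain ⟨s, hs, hy⟩ := h1 y
    refine ⟨fun i => ⟨s i, hs i⟩, ?_⟩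
    symm
    rw [QuotientAddGroup.eq_iff_sub_mem]
    exact hy
  exact Finite.of_surjective _ hs

theorem gen_finite (d q : ℕ) (V : Finset (Fin q → ℕ)) [Finite (Cl V)] (N s T : ℕ)
    (W : Finset (CC d q)) : (Gen d q V N s T W).Finite := by
  refine Set.Finite.union ?_ ((Set.toFinite _).image _)
  refine Set.Finite.subset
    (Set.Finite.prod (Set.finite_Iic (fun _ : W => ∑ v ∈ V, ∑ i, v i)) (Set.finite_univ)) ?_
  rintro _ ⟨u, ⟨hu, _⟩, rfl⟩
  refine ⟨?_, trivial⟩
  rw [Set.mem_Iic]
  intro x
  show u x.1 ≤ ∑ v ∈ V, ∑ i, v i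
  refine (le_tot u x.1).trans ?_
  have h2 : tot u x.1.2 ≤ ∑ i, tot u i :=
    Finset.single_le_sum (f := fun i => tot u i) (fun i _ => Nat.zero_le _) (Finset.mem_univ _)
  have h3 : ∑ i, tot u i ≤ ∑ v ∈ V, ∑ i, v i :=
    Finset.single_le_sum (f := fun v : Fin q → ℕ => ∑ i, v i) (fun i _ => Nat.zero_le _) hu.2.1
  exact h2.trans h3

theorem good_iff {d q : ℕ} (V : Finset (Fin q → ℕ)) (N s T : ℕ) (W : Finset (CC d q))
    (hW : W = win d q (T + N)) (w : W → ℕ)
    (g : Fin q → ℤ) : Good V N s T (ext w) g ↔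
      ∃ a : Cl V, (d = 1 → a = ((g : Fin q → ℤ) : Cl V)) ∧
        (w, a) ∈ AddSubmonoid.closure (Gen d q V N s T W) := by
  constructor
  · rintro ⟨μ, y, hμ, hy, hsum, hcl⟩
    have hsupp : ∀ x, x ∉ W → (μ.sum + y) x = 0 := by
      intro x hx
      rw [hsum, rst_apply]
      split_ifs with h
      · exact absurd (hW ▸ Finset.mem_product.2 ⟨h, Finset.mem_univ _⟩) hx
      · rfl
    have hw : Phi W (μ.sum + y) = w := by
      funext x
      rw [Phi_apply, hsum, rst_apply]
      have h0 : x.1 ∈ win d q (T + N) := hW ▸ x.2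
      have h1 : x.1.1 ∈ cube (0 : Cell d) (T + N) := (Finset.mem_product.1 h0).1
      rw [if_pos h1]
      unfold ext
      rw [dif_pos x.2]
    refine ⟨((leftCls s μ : Fin q → ℤ) : Cl V), fun hd => ?_, ?_⟩
    · rw [QuotientAddGroup.eq_iff_sub_mem]
      exact hcl hd
    · rw [leftCls_class, ← hw]
      have h2 : ∀ u ∈ μ, ∀ x ∈ u.support, x ∈ W := by
        intro u hu x hx
        by_contra hxW
        have h3 := hsupp x hxW
        have h4 : u ≤ μ.sum := Multiset.single_le_sum (fun _ _ => zero_le) u hu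
        have h5 : u x ≤ μ.sum x := h4 x
        rw [Finsupp.add_apply] at h3
        rw [Finsupp.mem_support_iff] at hx
        omega
      have h6 : ((Phi W (μ.sum + y), (μ.map (lc V s)).sum) : (W → ℕ) × Cl V)
          = (μ.map (fun u => ((Phi W u, lc V s u) : (W → ℕ) × Cl V))).sum +
            ∑ x : W, (y x.1) • ((Pi.single x 1 : W → ℕ), (0 : Cl V)) := by
        have h7 : ∀ ν : Multiset (Pat d q),
            (ν.map (fun u => ((Phi W u, lc V s u) : (W → ℕ) × Cl V))).sum
              = (Phi W ν.sum, (ν.map (lc V s)).sum) := by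
          intro ν
          induction ν using Multiset.induction_on with
          | empty => simp; rfl
          | cons u ν ih =>
            rw [Multiset.map_cons, Multiset.sum_cons, ih, Multiset.sum_cons, Multiset.map_cons,
              Multiset.sum_cons, map_add]
            rfl
        have h8 : ∑ x : W, (y x.1) • (((Pi.single x 1 : W → ℕ), (0 : Cl V)) : (W → ℕ) × Cl V)
            = (Phi W y, 0) := by
          apply Prod.ext
          · rw [Prod.fst_sum]
            funext z
            rw [Finset.sum_apply, Finset.sum_eq_single z]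
            · simp [Phi_apply]
            · intro b _ hb
              simp [Ne.symm hb]
            · intro h; exact absurd (Finset.mem_univ z) h
          · rw [Prod.snd_sum]
            simp
        rw [h7, h8, map_add]
        simp
      rw [h6]
      refine AddSubmonoid.add_mem _ ?_ ?_
      · apply AddSubmonoid.multiset_sum_mem
        intro z hz
        obtain ⟨u, hu, rfl⟩ := Multiset.mem_map.1 hz
        exact AddSubmonoid.subset_closure (Or.inl ⟨u, ⟨hμ u hu, h2 u hu⟩, rfl⟩)
      · refine AddSubmonoid.sum_mem _ fun x _ => ?_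
        by_cases hx : sn x.1.1 ≤ T
        · rw [hy x.1 hx, zero_smul]
          exact AddSubmonoid.zero_mem _
        · have h9 : ((Pi.single x 1 : W → ℕ), (0 : Cl V)) ∈
              AddSubmonoid.closure (Gen d q V N s T W) :=
            AddSubmonoid.subset_closure (Or.inr ⟨x, not_le.1 hx, rfl⟩)
          exact nsmul_mem h9 _
  · rintro ⟨a, ha, hmem⟩
    have key : ∀ z ∈ AddSubmonoid.closure (Gen d q V N s T W),
        ∃ (μ : Multiset (Pat d q)) (y : Pat d q), (∀ u ∈ μ, Fam V (N : ℝ) u) ∧
          (∀ x, sn x.1 ≤ T → y x = 0) ∧ (∀ x, x ∉ W → (μ.sum + y) x = 0) ∧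
          Phi W (μ.sum + y) = z.1 ∧ (μ.map (lc V s)).sum = z.2 := by
      intro z hz
      induction hz using AddSubmonoid.closure_induction with
      | mem z hz =>
        rcases hz with ⟨u, ⟨hu, hs⟩, rfl⟩ | ⟨x, hx, rfl⟩
        · refine ⟨{u}, 0, fun v hv => ?_, fun x _ => rfl, fun x hx => ?_, ?_, ?_⟩
          · rw [Multiset.mem_singleton.1 hv]; exact hu
          · rw [Multiset.sum_singleton, add_zero]
            by_contra h
            exact hx (hs x (Finsupp.mem_support_iff.2 h))
          · rw [Multiset.sum_singleton, add_zero]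
          · simp
        · refine ⟨0, Finsupp.single x.1 1, fun v hv => absurd hv (Multiset.notMem_zero v),
            fun z hz => ?_, fun z hz => ?_, ?_, ?_⟩
          · rw [Finsupp.single_apply, if_neg]
            rintro rfl
            exact absurd hz (not_le.2 hx)
          · rw [Multiset.sum_zero, zero_add, Finsupp.single_apply, if_neg]
            rintro rfl
            exact hz x.2
          · rw [Multiset.sum_zero, zero_add]
            funext z
            rw [Phi_apply, Finsupp.single_apply]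
            show _ = (Pi.single x 1 : W → ℕ) z
            rw [Pi.single_apply]
            by_cases h : z = x
            · subst h; simp
            · rw [if_neg (fun h' => h (Subtype.ext h'.symm)), if_neg h]
          · simp
      | zero =>
        exact ⟨0, 0, fun v hv => absurd hv (Multiset.notMem_zero v), fun _ _ => rfl,
          fun _ _ => rfl, by simp, by simp⟩
      | add z z' _ _ h1 h2 =>
        obtain ⟨μ, y, a1, a2, a3, a4, a5⟩ := h1
        obtain ⟨μ', y', b1, b2, b3, b4, b5⟩ := h2
        refine ⟨μ + μ', y + y', fun u hu => ?_, fun x hx => ?_, fun x hx => ?_, ?_, ?_⟩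
        · rcases Multiset.mem_add.1 hu with h | h
          · exact a1 u h
          · exact b1 u h
        · rw [Finsupp.add_apply, a2 x hx, b2 x hx]
        · have h1 := a3 x hx
          have h2 := b3 x hx
          rw [Finsupp.add_apply] at h1 h2
          rw [Multiset.sum_add, Finsupp.add_apply, Finsupp.add_apply, Finsupp.add_apply]
          omega
        · rw [Multiset.sum_add, add_add_add_comm, map_add, a4, b4]
          rfl
        · rw [Multiset.map_add, Multiset.sum_add, a5, b5]
          rfl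
    obtain ⟨μ, y, h1, h2, h3, h4, h5⟩ := key _ hmem
    refine ⟨μ, y, h1, h2, ?_, fun hd => ?_⟩
    · ext x
      rw [rst_apply]
      by_cases hx : x ∈ W
      · have h0 : x ∈ win d q (T + N) := hW ▸ hx
        rw [if_pos (Finset.mem_product.1 h0).1]
        have h6 := congrFun h4 ⟨x, hx⟩
        rw [Phi_apply] at h6
        unfold ext
        rw [dif_pos hx]
        exact h6
      · rw [h3 x hx, if_neg]
        intro h
        exact hx (hW ▸ Finset.mem_product.2 ⟨h, Finset.mem_univ _⟩)
    · rw [← QuotientAddGroup.eq_iff_sub_mem, leftCls_class, h5]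
      exact ha hd

theorem semi (h : T_CLS) : T_SEMI := by
  intro d q D N s T _ _
  have := cl_finite D h
  obtain ⟨W, hW⟩ : ∃ W, W = win d q (T + N) := ⟨_, rfl⟩
  unfold ZBad
  rw [← hW]
  set P := AddSubmonoid.closure (Gen d q D.V N s T W) with hP
  have hPs : IsSemilinearSet (P : Set ((W → ℕ) × Cl D.V)) :=
    IsSemilinearSet.closure_of_finite (gen_finite d q D.V N s T W)
  have hZ : {w : W → ℕ | ∃ g, ¬ Good D.V N s T (ext w) g} = ⋃ a₀ : Cl D.V,
      ((AddMonoidHom.fst (W → ℕ) (Cl D.V)) ''
        ((P : Set ((W → ℕ) × Cl D.V)) ∩ {z | d = 1 → z.2 = a₀}))ᶜ := by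
    ext w
    rw [Set.mem_iUnion]
    constructor
    · rintro ⟨g, hg⟩
      refine ⟨((g : Fin q → ℤ) : Cl D.V), fun hmem => hg ?_⟩
      obtain ⟨⟨w', a⟩, ⟨h1, h2⟩, h3⟩ := hmem
      have h3' : w' = w := h3
      subst h3'
      rw [good_iff D.V N s T W hW]
      exact ⟨a, h2, h1⟩
    · rintro ⟨a₀, ha⟩
      obtain ⟨g, rfl⟩ := QuotientAddGroup.mk_surjective a₀
      refine ⟨g, fun hg => ha ?_⟩
      rw [good_iff D.V N s T W hW] at hg
      obtain ⟨a, h1, h2⟩ := hg
      exact ⟨(w, a), ⟨h2, h1⟩, rfl⟩
  rw [hZ]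
  refine IsSemilinearSet.iUnion fun a₀ => ?_
  apply IsSemilinearSet.compl
  apply IsSemilinearSet.image
  by_cases hd : d = 1
  · apply hPs.inter
    have h1 : {z : (W → ℕ) × Cl D.V | d = 1 → z.2 = a₀}
        = ((0, a₀) : (W → ℕ) × Cl D.V) +ᵥ
          ((AddMonoidHom.inl (W → ℕ) (Cl D.V)) '' Set.univ) := by
      ext z
      constructor
      · intro hz
        refine ⟨(z.1, 0), ⟨z.1, trivial, rfl⟩, ?_⟩
        have := hz hd
        apply Prod.ext
        · simp
        · simp [this]
      · rintro ⟨_, ⟨w, _, rfl⟩, rfl⟩ _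
        simp
    rw [h1]
    exact (IsSemilinearSet.univ.image _).vadd _
  · have h1 : {z : (W → ℕ) × Cl D.V | d = 1 → z.2 = a₀} = Set.univ := by
      ext z
      simp [hd]
    rw [h1, Set.inter_univ]
    exact hPs

end

end Pool.Agent.H46.MC
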