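import Mathlib
import Pool.Agent.H96.MC.Targets
import Pool.Agent.H46.MC.SEMI

/-!
# SUP: windows with typical superblocks are good
-/

namespace Pool.Agent.H46.MC

open Classical Pool.Agent.H96.MC

noncomputable section

theorem exists_sub {d q : ℕ} (p : Pat d q) : ∀ r : Fin q → ℕ, (∀ i, r i ≤ tot p i) →
    ∃ o : Pat d q, o ≤ p ∧ tot o = r := by
  induction p using Finsupp.induction_linear with
  | zero =>
    intro r hr
    refine ⟨0, le_refl _, ?_⟩
    funext i
    have := hr i
    rw [tot_zero] at this ⊢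
    simp at this
    simp [this]
  | add f g hf hg =>
    intro r hr
    obtain ⟨o1, h1, h2⟩ := hf (fun i => min (r i) (tot f i)) (fun i => min_le_right _ _)
    obtain ⟨o2, h3, h4⟩ := hg (fun i => r i - min (r i) (tot f i)) (fun i => by
      have := hr i
      rw [tot_add, Pi.add_apply] at this
      show r i - min (r i) (tot f i) ≤ _
      omega)
    refine ⟨o1 + o2, add_le_add h1 h3, ?_⟩
    rw [tot_add, h2, h4]
    funext i
    show min (r i) (tot f i) + (r i - min (r i) (tot f i)) = r i
    omega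
  | single x k =>
    intro r hr
    refine ⟨Finsupp.single x (r x.2), ?_, ?_⟩
    · have := hr x.2
      rw [tot_single, Pi.single_eq_same] at this
      exact Finsupp.single_le_single.2 this
    · rw [tot_single]
      funext i
      by_cases h : i = x.2
      · subst h; simp
      · have := hr i
        rw [tot_single, Pi.single_apply, if_neg h] at this
        rw [Pi.single_apply, if_neg h]
        omega

theorem push_bl_apply {d q : ℕ} {k : ℕ} (hk : 1 ≤ k) (u : Pat d q) (b : Cell d) (i : Fin q) :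
    push (bl k) u (b, i) = ∑ z ∈ cellsOf k b, u (z, i) := by
  induction u using Finsupp.induction_linear with
  | zero => rw [push_zero]; simp
  | add f g hf hg =>
    rw [push_add, Finsupp.add_apply, hf, hg, ← Finset.sum_add_distrib]
    rfl
  | single a n =>
    obtain ⟨a1, a2⟩ := a
    rw [push_single, Finsupp.single_apply]
    by_cases h : bl k a1 = b ∧ a2 = i
    · obtain ⟨h1, h2⟩ := h
      subst h2
      rw [if_pos (by rw [h1]), Finset.sum_eq_single a1]
      · simp
      · intro z _ hz
        rw [Finsupp.single_apply, if_neg]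
        intro h3
        exact hz (congrArg Prod.fst h3).symm
      · intro h3
        exact absurd ((mem_cellsOf hk).2 h1) h3
    · rw [if_neg (fun h3 => h ⟨congrArg Prod.fst h3, congrArg Prod.snd h3⟩)]
      symm
      apply Finset.sum_eq_zero
      intro z hz
      rw [Finsupp.single_apply, if_neg]
      intro h3
      apply h
      have h4 := congrArg Prod.fst h3
      have h5 := congrArg Prod.snd h3
      simp only at h4 h5
      subst h4
      exact ⟨(mem_cellsOf hk).1 hz, h5⟩

theorem adj_symm {d : ℕ} {a b : Cell d} (h : Adj a b) : Adj b a := by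
  unfold Adj at *
  rw [← h]
  refine Finset.sum_congr rfl fun i _ => ?_
  omega

theorem conn_insert {d : ℕ} {Y : Finset (Cell d)} (hY : Conn Y) {x y : Cell d} (hy : y ∈ Y)
    (hxy : Adj x y) : Conn (insert x Y) := by
  have mono : ∀ a ∈ Y, ∀ b ∈ Y,
      Relation.ReflTransGen (fun a b => a ∈ insert x Y ∧ b ∈ insert x Y ∧ Adj a b) a b := by
    intro a ha b hb
    have hle : (fun a b => a ∈ Y ∧ b ∈ Y ∧ Adj a b) ≤
        (fun a b => a ∈ insert x Y ∧ b ∈ insert x Y ∧ Adj a b) :=
      fun u v h => ⟨Finset.mem_insert_of_mem h.1, Finset.mem_insert_of_mem h.2.1, h.2.2⟩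
    exact Relation.ReflTransGen.mono hle _ _ (hY a ha b hb)
  have hx1 : Relation.ReflTransGen (fun a b => a ∈ insert x Y ∧ b ∈ insert x Y ∧ Adj a b) x y :=
    Relation.ReflTransGen.single
      ⟨Finset.mem_insert_self _ _, Finset.mem_insert_of_mem hy, hxy⟩
  have hx2 : Relation.ReflTransGen (fun a b => a ∈ insert x Y ∧ b ∈ insert x Y ∧ Adj a b) y x :=
    Relation.ReflTransGen.single
      ⟨Finset.mem_insert_of_mem hy, Finset.mem_insert_self _ _, adj_symm hxy⟩
  intro a ha b hb
  rcases Finset.mem_insert.1 ha with ha1 | ha1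
  · rcases Finset.mem_insert.1 hb with hb1 | hb1
    · rw [ha1, hb1]
    · rw [ha1]
      exact hx1.trans (mono _ hy _ hb1)
  · rcases Finset.mem_insert.1 hb with hb1 | hb1
    · rw [hb1]
      exact (mono _ ha1 _ hy).trans hx2
    · exact mono _ ha1 _ hb1

/-- lifting from superblocks to cells -/
theorem lift_blocks {d q : ℕ} (D : Dat q) {η c₁ : ℝ} (hAL : ALok D d η c₁) (hL : T_LIFT)
    {N k : ℕ} {C : ℝ} (hk : 1 ≤ k) (hN : (d + 2) * k ≤ N) (hC : c₁ ≤ C) (Y : Finset (Cell d))
    (hY : Conn Y) (u : Pat d q) (hsupp : ∀ x ∈ u.support, bl k x.1 ∈ Y)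
    (hfat : ∀ b ∈ Y, Fat D.lam η C (fun i => push (bl k) u (b, i)))
    (hlat : Pool.Agent.H96.MC.toZ (tot u) ∈ Lat D.V) : u ∈ Tl D.V (N : ℝ) := by
  have hv : push (bl k) u ∈ Tl D.V 2 := by
    refine hAL.2.2.2 Y (fun _ => C) (push (bl k) u) hY ?_ (fun b hb => ⟨hC, hfat b hb⟩) ?_
    · intro x hx
      have h1 := Finsupp.mapDomain_support hx
      obtain ⟨z, hz, rfl⟩ := Finset.mem_image.1 h1
      exact hsupp z hz
    · rw [tot_push]
      exact hlat
  have h := hL d q D.V 2 (N : ℝ) (CC d q) (fun x => x.1) (fun x => bl k x.1) (fun x => x.2) u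
    (fun x _ y _ hxy => by
      refine (nrm_le_bl hk x.1 y.1).trans ?_
      have h1 : (k : ℝ) * (nrm (bl k x.1 - bl k y.1) + d) ≤ k * (2 + d) :=
        mul_le_mul_of_nonneg_left (by linarith) (Nat.cast_nonneg k)
      have h2 : ((d + 2) * k : ℝ) ≤ N := by exact_mod_cast hN
      linarith) hv
  have h2 : Finsupp.mapDomain (fun t : CC d q => (t.1, t.2)) u = u := Finsupp.mapDomain_id
  rw [h2] at h
  exact h

theorem fin_one_eq {d : ℕ} (hd : d = 1) (i j : Fin d) : i = j := by
  subst hd
  exact Subsingleton.elim i j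

/-- in dimension one the class of a family of small diameter is the class of its left part -/
theorem lc_eq {d q : ℕ} (hd : d = 1) (V : Finset (Fin q → ℕ)) {N s : ℕ} (hNs : N ≤ s)
    (u : Pat d q) (hu : Fam V (N : ℝ) u) : lc V s u =
      ((Pool.Agent.H96.MC.toZ (tot (u.filter (fun x => ∃ i, x.1 i < -(s : ℤ)))) : Fin q → ℤ) :
        Cl V) := by
  unfold lc
  split_ifs with h
  · rfl
  · symm
    have hout : ∀ x ∈ u.support, s < sn x.1 := by
      intro x hx
      by_contra h1
      exact h ⟨x, hx, not_lt.1 h1⟩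
    let i0 : Fin d := ⟨0, by omega⟩
    have hsn : ∀ z : Cell d, sn z = (z i0).natAbs := by
      intro z
      apply le_antisymm
      · rw [sn_le_iff]
        intro i
        rw [fin_one_eq hd i i0]
      · exact natAbs_le_sn z i0
    have hex : ∀ z : Cell d, (∃ i, z i < -(s : ℤ)) ↔ z i0 < -(s : ℤ) := by
      intro z
      constructor
      · rintro ⟨i, hi⟩
        rw [fin_one_eq hd i0 i]
        exact hi
      · intro h1
        exact ⟨i0, h1⟩
    obtain ⟨x0, hx0⟩ : u.support.Nonempty := Finsupp.support_nonempty_iff.2 hu.1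
    have hclose : ∀ x ∈ u.support, ∀ y ∈ u.support, (x.1 i0 - y.1 i0).natAbs ≤ N := by
      intro x hx y hy
      have h1 := hu.2.2 x hx y hy
      have h2 := sn_le_nrm (x.1 - y.1)
      have h3 : ((sn (x.1 - y.1) : ℕ) : ℝ) ≤ (N : ℝ) := h2.trans h1
      have h4 : sn (x.1 - y.1) ≤ N := by exact_mod_cast h3
      have h5 := natAbs_le_sn (x.1 - y.1) i0
      exact h5.trans h4
    by_cases h0 : x0.1 i0 < -(s : ℤ)
    · have hall : u.filter (fun x => ∃ i, x.1 i < -(s : ℤ)) = u := by
        rw [Finsupp.filter_eq_self_iff]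
        intro x hx
        rw [hex]
        have h1 := hout x (Finsupp.mem_support_iff.2 hx)
        rw [hsn] at h1
        have h2 := hclose x (Finsupp.mem_support_iff.2 hx) x0 hx0
        omega
      rw [hall]
      rw [QuotientAddGroup.eq_zero_iff]
      exact AddSubgroup.subset_closure ⟨_, hu.2.1, rfl⟩
    · have hnone : u.filter (fun x => ∃ i, x.1 i < -(s : ℤ)) = 0 := by
        rw [Finsupp.filter_eq_zero_iff]
        intro x hx1
        rw [hex] at hx1
        by_contra hx
        have h1 := hout x (Finsupp.mem_support_iff.2 hx)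
        have h1' := hout x0 hx0
        rw [hsn] at h1 h1'
        have h2 := hclose x (Finsupp.mem_support_iff.2 hx) x0 hx0
        omega
      rw [hnone, tot_zero, toZ_zero]
      rfl

theorem leftCls_total {d q : ℕ} (hd : d = 1) (V : Finset (Fin q → ℕ)) {N s : ℕ} (hNs : N ≤ s)
    (μ : Multiset (Pat d q)) (hμ : ∀ u ∈ μ, Fam V (N : ℝ) u) :
    ((leftCls s μ : Fin q → ℤ) : Cl V) =
      ((Pool.Agent.H96.MC.toZ (tot (μ.sum.filter (fun x => ∃ i, x.1 i < -(s : ℤ)))) :
        Fin q → ℤ) : Cl V) := by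
  rw [leftCls_class]
  induction μ using Multiset.induction_on with
  | empty =>
    simp only [Multiset.map_zero, Multiset.sum_zero, Finsupp.filter_zero, tot_zero, toZ_zero]
    rfl
  | cons u μ ih =>
    rw [Multiset.map_cons, Multiset.sum_cons, Multiset.sum_cons,
      ih (fun v hv => hμ v (Multiset.mem_cons_of_mem hv)),
      lc_eq hd V hNs u (hμ u (Multiset.mem_cons_self u μ)), Finsupp.filter_add, tot_add, toZ_add,
      QuotientAddGroup.mk_add]

theorem push_le {d q : ℕ} (g : Cell d → Cell d) (u : Pat d q) (x : CC d q) :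
    push g u x ≤ tot u x.2 := by
  rw [← tot_push g u]
  exact le_tot _ _

/-- the main construction: a window with two extra blocks -/
theorem sup_core {d q : ℕ} (D : Dat q) {η c₁ : ℝ} (hd : 1 ≤ d) (hAL : ALok D d η c₁)
    (h0 : T_BOX) (hL : T_LIFT) {E : ℕ}
    (hE : ∀ y : Fin q → ℤ, ∃ s : Fin q → ℕ, (∀ i, s i < E) ∧
      y - Pool.Agent.H96.MC.toZ s ∈ Lat D.V)
    {N s T k : ℕ} {C : ℝ} (m : Cfg d q) (hN : (d + 2) * k ≤ N) (hk : 1 ≤ k) (hNs : N ≤ s)
    (hsT : s ≤ T) (hC : c₁ ≤ C) (hEC : ∀ i, (E : ℝ) ≤ η / 2 * C * D.lam i)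
    (hfat : ∀ b, cellsOf k b ⊆ cube 0 (T + N) →
      Fat D.lam (η / 2) C (fun i => bc k m (b, i))) (g : Fin q → ℤ) :
    Good D.V N s T m g := by
  have hη : 0 < η := hAL.1
  have hη2 : η ≤ 1 / 2 := hAL.2.1
  have hC0 : 0 < C := lt_of_lt_of_le hAL.2.2.1 hC
  have hkZ : (0 : ℤ) < k := by exact_mod_cast hk
  have h3k : 3 * k ≤ N := by
    calc 3 * k ≤ (d + 2) * k := Nat.mul_le_mul_right k (by omega)
      _ ≤ N := hN
  set A : ℤ := (-(T : ℤ)) / k with hA
  set B : ℤ := (T : ℤ) / k with hB
  have hA1 : (k : ℤ) * A ≤ -T := Int.mul_ediv_self_le hkZ.ne'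
  have hA2 : -(T : ℤ) < k * A + k := by
    have := Int.lt_mul_ediv_self_add (x := -(T : ℤ)) hkZ
    linarith
  have hB1 : (k : ℤ) * B ≤ T := Int.mul_ediv_self_le hkZ.ne'
  have hB2 : (T : ℤ) < k * B + k := by
    have := Int.lt_mul_ediv_self_add (x := (T : ℤ)) hkZ
    linarith
  have hAB : A ≤ B := Int.ediv_le_ediv hkZ (by omega)
  let i0 : Fin d := ⟨0, by omega⟩
  set Y0 : Finset (Cell d) := Fintype.piFinset (fun _ => Finset.Icc A B) with hY0
  set bR : Cell d := Function.update (fun _ => B) i0 (B + 1) with hbR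
  set bL : Cell d := Function.update (fun _ => B) i0 (A - 1) with hbL
  have hcR : (fun _ => B : Cell d) ∈ Y0 := by
    rw [hY0, Fintype.mem_piFinset]
    intro i
    exact Finset.mem_Icc.2 ⟨hAB, le_refl _⟩
  have hcL : (Function.update (fun _ => B) i0 A : Cell d) ∈ Y0 := by
    rw [hY0, Fintype.mem_piFinset]
    intro i
    by_cases h : i = i0
    · subst h
      rw [Function.update_self]
      exact Finset.mem_Icc.2 ⟨le_refl _, hAB⟩
    · rw [Function.update_of_ne h]
      exact Finset.mem_Icc.2 ⟨hAB, le_refl _⟩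
  have hadjR : Adj bR (fun _ => B : Cell d) := by
    unfold Adj
    rw [Finset.sum_eq_single i0]
    · rw [hbR, Function.update_self]
      show (B + 1 - B).natAbs = 1
      omega
    · intro b _ hb
      rw [hbR, Function.update_of_ne hb]
      show (B - B).natAbs = 0
      omega
    · intro h; exact absurd (Finset.mem_univ _) h
  have hadjL : Adj bL (Function.update (fun _ => B) i0 A : Cell d) := by
    unfold Adj
    rw [Finset.sum_eq_single i0]
    · rw [hbL, Function.update_self, Function.update_self]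
      omega
    · intro b _ hb
      rw [hbL, Function.update_of_ne hb, Function.update_of_ne hb]
      omega
    · intro h; exact absurd (Finset.mem_univ _) h
  have hconn0 : Conn Y0 := h0 d (fun _ => A) (fun _ => B)
  set Y : Finset (Cell d) := insert bR (insert bL Y0) with hY
  have hconn : Conn Y :=
    conn_insert (conn_insert hconn0 hcL hadjL) (Finset.mem_insert_of_mem hcR) hadjR
  have hbRY : bR ∈ Y := Finset.mem_insert_self _ _
  have hbLY : bL ∈ Y := Finset.mem_insert_of_mem (Finset.mem_insert_self _ _)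
  have hYbound : ∀ b ∈ Y, ∀ i, A - 1 ≤ b i ∧ b i ≤ B + 1 := by
    intro b hb i
    rcases Finset.mem_insert.1 hb with rfl | hb
    · by_cases h : i = i0
      · subst h
        rw [hbR, Function.update_self]
        omega
      · rw [hbR, Function.update_of_ne h]
        omega
    · rcases Finset.mem_insert.1 hb with rfl | hb
      · by_cases h : i = i0
        · subst h
          rw [hbL, Function.update_self]
          omega
        · rw [hbL, Function.update_of_ne h]
          omega
      · rw [hY0, Fintype.mem_piFinset] at hb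
        have := Finset.mem_Icc.1 (hb i)
        omega
  have hYcube : ∀ b ∈ Y, cellsOf k b ⊆ cube (0 : Cell d) (T + N) := by
    intro b hb z hz
    rw [mem_cube, sub_zero, sn_le_iff]
    intro i
    have h1 := hYbound b hb i
    unfold cellsOf at hz
    rw [Fintype.mem_piFinset] at hz
    have h2 := Finset.mem_Ico.1 (hz i)
    have h3 : (k : ℤ) * (A - 1) ≤ k * b i := mul_le_mul_of_nonneg_left h1.1 hkZ.le
    have h4 : (k : ℤ) * b i ≤ k * (B + 1) := mul_le_mul_of_nonneg_left h1.2 hkZ.le
    have h5 : (k : ℤ) * (A - 1) = k * A - k := by ring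
    have h6 : (k : ℤ) * (B + 1) = k * B + k := by ring
    have h7 : (3 : ℤ) * k ≤ N := by exact_mod_cast h3k
    omega
  -- fatness of the blocks of Y
  have hbig : ∀ b ∈ Y, ∀ i, E ≤ tot (rst m (cellsOf k b)) i := by
    intro b hb i
    have h1 := hfat b (hYcube b hb) i
    have h2 : bc k m (b, i) ≤ tot (rst m (cellsOf k b)) i := by
      have h3 := push_le (bl k) (rst m (cellsOf k b)) (b, i)
      rw [push_bl_apply hk] at h3
      refine le_trans (le_of_eq ?_) h3
      unfold bc
      refine Finset.sum_congr rfl fun z hz => ?_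
      rw [rst_apply, if_pos hz]
    have h4 : (E : ℝ) ≤ bc k m (b, i) := by
      have h5 := hEC i
      have h6 := abs_le.1 h1
      have h7 : 0 < C * D.lam i := mul_pos hC0 (D.pos i)
      have h8 : (bc k m (b, i) : ℝ) ≥ C * D.lam i - η / 2 * C * D.lam i := by linarith [h6.1]
      have h9 : η / 2 * C * D.lam i = η / 2 * (C * D.lam i) := by ring
      rw [h9] at h5 h8
      nlinarith
    have h5 : E ≤ bc k m (b, i) := by exact_mod_cast h4
    exact h5.trans h2
  set RY : Pat d q := rst m (Y.biUnion (cellsOf k)) with hRY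
  -- the two corrections
  obtain ⟨rL, hrL, hrL2⟩ := hE
    (Pool.Agent.H96.MC.toZ (tot (RY.filter (fun x => ∃ i, x.1 i < -(s : ℤ)))) - g)
  obtain ⟨oL, hoL, htL⟩ := exists_sub (rst m (cellsOf k bL)) rL
    (fun i => (hrL i).le.trans (hbig bL hbLY i))
  obtain ⟨rR, hrR, hrR2⟩ := hE (Pool.Agent.H96.MC.toZ (tot RY) - Pool.Agent.H96.MC.toZ rL)
  obtain ⟨oR, hoR, htR⟩ := exists_sub (rst m (cellsOf k bR)) rR
    (fun i => (hrR i).le.trans (hbig bR hbRY i))
  have hbne : bL ≠ bR := by
    intro h
    have h1 := congrFun h i0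
    rw [hbL, hbR, Function.update_self, Function.update_self] at h1
    omega
  have hoL0 : ∀ x : CC d q, bl k x.1 ≠ bL → oL x = 0 := by
    intro x hx
    have h1 := hoL x
    rw [rst_apply, if_neg (fun h => hx ((mem_cellsOf hk).1 h))] at h1
    exact Nat.le_zero.1 h1
  have hoR0 : ∀ x : CC d q, bl k x.1 ≠ bR → oR x = 0 := by
    intro x hx
    have h1 := hoR x
    rw [rst_apply, if_neg (fun h => hx ((mem_cellsOf hk).1 h))] at h1
    exact Nat.le_zero.1 h1
  have hmemY : ∀ z : Cell d, z ∈ Y.biUnion (cellsOf k) ↔ bl k z ∈ Y := by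
    intro z
    rw [Finset.mem_biUnion]
    constructor
    · rintro ⟨b, hb, hz⟩
      rw [(mem_cellsOf hk).1 hz]
      exact hb
    · intro h
      exact ⟨_, h, mem_cellsOf_bl hk z⟩
  have hole : oL + oR ≤ RY := by
    intro x
    rw [Finsupp.add_apply, hRY, rst_apply]
    by_cases h1 : bl k x.1 = bL
    · have h2 : oR x = 0 := hoR0 x (by rw [h1]; exact hbne)
      have h3 := hoL x
      rw [rst_apply, if_pos ((mem_cellsOf hk).2 h1)] at h3
      rw [if_pos ((hmemY x.1).2 (by rw [h1]; exact hbLY)), h2, add_zero]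
      exact h3
    · have h2 : oL x = 0 := hoL0 x h1
      by_cases h3 : bl k x.1 = bR
      · have h4 := hoR x
        rw [rst_apply, if_pos ((mem_cellsOf hk).2 h3)] at h4
        rw [if_pos ((hmemY x.1).2 (by rw [h3]; exact hbRY)), h2, zero_add]
        exact h4
      · rw [h2, hoR0 x h3]
        exact Nat.zero_le _
  set u : Pat d q := RY - (oL + oR) with hu
  have huo : u + (oL + oR) = RY := tsub_add_cancel_of_le hole
  -- the class of u
  have htotu : Pool.Agent.H96.MC.toZ (tot u) + (Pool.Agent.H96.MC.toZ rL +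
      Pool.Agent.H96.MC.toZ rR) = Pool.Agent.H96.MC.toZ (tot RY) := by
    rw [← huo, tot_add, tot_add, toZ_add, toZ_add, htL, htR]
  have hulat : Pool.Agent.H96.MC.toZ (tot u) ∈ Lat D.V := by
    have h1 : Pool.Agent.H96.MC.toZ (tot u) = Pool.Agent.H96.MC.toZ (tot RY) -
        Pool.Agent.H96.MC.toZ rL - Pool.Agent.H96.MC.toZ rR := by
      rw [← htotu]; abel
    rw [h1]
    exact hrR2
  have husupp : ∀ x ∈ u.support, bl k x.1 ∈ Y := by
    intro x hx
    by_contra h
    have h1 : RY x = 0 := by
      rw [hRY, rst_apply, if_neg (fun h2 => h ((hmemY x.1).1 h2))]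
    have h2 := DFunLike.congr_fun huo x
    rw [Finsupp.add_apply, h1] at h2
    exact (Finsupp.mem_support_iff.1 hx) (by omega)
  have hufat : ∀ b ∈ Y, Fat D.lam η C (fun i => push (bl k) u (b, i)) := by
    intro b hb i
    have h1 : push (bl k) u (b, i) + (push (bl k) oL (b, i) + push (bl k) oR (b, i))
        = bc k m (b, i) := by
      have h2 : push (bl k) u + (push (bl k) oL + push (bl k) oR) = push (bl k) RY := by
        rw [← huo, push_add, push_add]
      have h3 := DFunLike.congr_fun h2 (b, i)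
      rw [Finsupp.add_apply, Finsupp.add_apply] at h3
      rw [h3, push_bl_apply hk]
      unfold bc
      refine Finset.sum_congr rfl fun z hz => ?_
      rw [hRY, rst_apply, if_pos ((hmemY z).2 (by rw [(mem_cellsOf hk).1 hz]; exact hb))]
    have hLz : ∀ b', b' ≠ bL → push (bl k) oL (b', i) = 0 := by
      intro b' hb'
      rw [push_bl_apply hk]
      refine Finset.sum_eq_zero fun z hz => hoL0 _ ?_
      rw [(mem_cellsOf hk).1 hz]
      exact hb'
    have hRz : ∀ b', b' ≠ bR → push (bl k) oR (b', i) = 0 := by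
      intro b' hb'
      rw [push_bl_apply hk]
      refine Finset.sum_eq_zero fun z hz => hoR0 _ ?_
      rw [(mem_cellsOf hk).1 hz]
      exact hb'
    have h4 : push (bl k) oL (b, i) + push (bl k) oR (b, i) ≤ E := by
      by_cases hbl : b = bL
      · rw [hRz b (by rw [hbl]; exact hbne), add_zero]
        have h5 := push_le (bl k) oL (b, i)
        rw [htL] at h5
        exact h5.trans (hrL i).le
      · rw [hLz b hbl, zero_add]
        have h5 := push_le (bl k) oR (b, i)
        rw [htR] at h5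
        exact h5.trans (hrR i).le
    have h5 := abs_le.1 (hfat b (hYcube b hb) i)
    have h6 : ((push (bl k) oL (b, i) + push (bl k) oR (b, i) : ℕ) : ℝ) ≤ E := by exact_mod_cast h4
    have h7 : ((push (bl k) u (b, i) : ℕ) : ℝ) +
        ((push (bl k) oL (b, i) + push (bl k) oR (b, i) : ℕ) : ℝ) = (bc k m (b, i) : ℝ) := by
      exact_mod_cast h1
    have h8 : (0 : ℝ) ≤ ((push (bl k) oL (b, i) + push (bl k) oR (b, i) : ℕ) : ℝ) :=
      Nat.cast_nonneg _
    have h9 := hEC i
    have h10 : 0 < η * (C * D.lam i) := mul_pos hη (mul_pos hC0 (D.pos i))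
    rw [abs_le]
    constructor
    · nlinarith [h5.1]
    · nlinarith [h5.2]
  obtain ⟨μ, hμ, hμs⟩ := Tl_exists (lift_blocks D hAL hL hk hN hC Y hconn u husupp hufat hulat)
  set R : Pat d q := rst m (cube 0 (T + N)) with hR
  have huR : u ≤ R := by
    have h1 : u ≤ RY := by rw [← huo]; exact le_self_add
    refine h1.trans ?_
    intro x
    rw [hRY, hR, rst_apply, rst_apply]
    by_cases h : x.1 ∈ Y.biUnion (cellsOf k)
    · rw [if_pos h, if_pos]
      obtain ⟨b, hb, hz⟩ := Finset.mem_biUnion.1 h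
      exact hYcube b hb hz
    · rw [if_neg h]
      exact Nat.zero_le _
  have hi0R : ∀ z : Cell d, bl k z = bR → (T : ℤ) < z i0 := by
    intro z hz
    have h1 := bl_bounds hk z i0
    rw [hz, hbR, Function.update_self] at h1
    have h6 : (k : ℤ) * (B + 1) = k * B + k := by ring
    omega
  have hi0L : ∀ z : Cell d, bl k z = bL → z i0 < -(T : ℤ) := by
    intro z hz
    have h1 := bl_bounds hk z i0
    rw [hz, hbL, Function.update_self] at h1
    have h6 : (k : ℤ) * (A - 1) = k * A - k := by ring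
    omega
  refine ⟨μ, R - u, hμ, ?_, ?_, ?_⟩
  · intro x hx
    have hxi : ∀ i, -(T : ℤ) ≤ x.1 i ∧ x.1 i ≤ T := by
      intro i
      have := sn_le_iff.1 hx i
      omega
    have h1 : bl k x.1 ∈ Y0 := by
      rw [hY0, Fintype.mem_piFinset]
      intro i
      exact Finset.mem_Icc.2 ⟨Int.ediv_le_ediv hkZ (hxi i).1, Int.ediv_le_ediv hkZ (hxi i).2⟩
    have h2 : bl k x.1 ∈ Y := Finset.mem_insert_of_mem (Finset.mem_insert_of_mem h1)
    have h3 : oL x = 0 := by
      apply hoL0
      intro h
      have := hi0L x.1 h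
      have := hxi i0
      omega
    have h4 : oR x = 0 := by
      apply hoR0
      intro h
      have := hi0R x.1 h
      have := hxi i0
      omega
    have h5 := DFunLike.congr_fun huo x
    rw [Finsupp.add_apply, Finsupp.add_apply, h3, h4, hRY, rst_apply, if_pos ((hmemY x.1).2 h2)] at h5
    rw [Finsupp.tsub_apply, hR, rst_apply, if_pos]
    · omega
    · rw [mem_cube, sub_zero]
      omega
  · rw [hμs]
    exact add_tsub_cancel_of_le huR
  · intro hd1
    have h1 := leftCls_total hd1 D.V hNs μ hμ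
    rw [hμs] at h1
    have h2 : (RY.filter (fun x => ∃ i, x.1 i < -(s : ℤ)))
        = (u.filter (fun x => ∃ i, x.1 i < -(s : ℤ))) + oL := by
      rw [← huo, Finsupp.filter_add, Finsupp.filter_add]
      congr 1
      have h3 : oR.filter (fun x => ∃ i, x.1 i < -(s : ℤ)) = 0 := by
        rw [Finsupp.filter_eq_zero_iff]
        rintro x ⟨i, hi⟩
        apply hoR0
        intro h
        have h4 := hi0R x.1 h
        rw [fin_one_eq hd1 i i0] at hi
        omega
      have h4 : oL.filter (fun x => ∃ i, x.1 i < -(s : ℤ)) = oL := by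
        rw [Finsupp.filter_eq_self_iff]
        intro x hx
        refine ⟨i0, ?_⟩
        have h5 : bl k x.1 = bL := by
          by_contra h
          exact hx (hoL0 x h)
        have := hi0L x.1 h5
        omega
      rw [h3, h4, add_zero]
    rw [h2, tot_add, toZ_add, htL] at hrL2
    have h3 : Pool.Agent.H96.MC.toZ (tot (u.filter (fun x => ∃ i, x.1 i < -(s : ℤ)))) +
        Pool.Agent.H96.MC.toZ rL - g - Pool.Agent.H96.MC.toZ rL
        = Pool.Agent.H96.MC.toZ (tot (u.filter (fun x => ∃ i, x.1 i < -(s : ℤ)))) - g := by abel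
    rw [h3] at hrL2
    rw [← QuotientAddGroup.eq_iff_sub_mem, h1, QuotientAddGroup.eq_iff_sub_mem]
    exact hrL2

theorem sup (h0 : T_BOX) (h1 : T_CLS) (h2 : T_LIFT) : T_SUP := by
  intro d q D η c₁ hd hAL
  obtain ⟨E, hE, hE1, _⟩ := h1 q D
  have hη : 0 < η := hAL.1
  refine ⟨max c₁ (∑ i, 2 * E / (η * D.lam i)), lt_of_lt_of_le hAL.2.2.1 (le_max_left _ _), ?_⟩
  intro N s T k C m hN hk hNs hsT hC hfat g
  refine sup_core D hd hAL h0 h2 hE1 m hN hk hNs hsT ((le_max_left _ _).trans hC) ?_ hfat g
  intro i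
  have hpos : 0 < η * D.lam i := mul_pos hη (D.pos i)
  have h3 : 2 * (E : ℝ) / (η * D.lam i) ≤ ∑ j, 2 * (E : ℝ) / (η * D.lam j) :=
    Finset.single_le_sum (f := fun j => 2 * (E : ℝ) / (η * D.lam j))
      (fun j _ => div_nonneg (by positivity) (mul_pos hη (D.pos j)).le) (Finset.mem_univ i)
  have h4 : 2 * (E : ℝ) / (η * D.lam i) ≤ C := h3.trans ((le_max_right _ _).trans hC)
  rw [div_le_iff₀ hpos] at h4
  linarith

end

end Pool.Agent.H46.MC
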